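import Pool.Agent.Lib.MP_799fdf_al.Mnf.ClC

set_option autoImplicit false

open scoped commutatorElement

namespace MP799fdf

namespace Mnf

open Inn

private theorem clife_dvd {X : Type} [Group X] {p : ℕ} {T : Subgroup (MulAut X)}
    {K₀ K : Subgroup X} (hE : Es p T K₀ K) : p ∣ K₀.relIndex K := by
  obtain ⟨H, Y, h1, h2, h3, h4, -⟩ := hE
  have h5 : K₀.relIndex Y * Y.relIndex H = K₀.relIndex H := Subgroup.relIndex_mul_relIndex _ _ _ h1 h2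
  have h6 : K₀.relIndex H * H.relIndex K = K₀.relIndex K :=
    Subgroup.relIndex_mul_relIndex _ _ _ (h1.trans h2) h3
  rw [← h6, ← h5]
  exact Dvd.dvd.mul_right (Dvd.dvd.mul_left h4 _) _

private theorem clife_le {X : Type} [Group X] {p : ℕ} {T : Subgroup (MulAut X)}
    {K₀ K : Subgroup X} (hE : Es p T K₀ K) : K₀ ≤ K := by
  obtain ⟨H, Y, h1, h2, h3, -, -⟩ := hE
  exact (h1.trans h2).trans h3

private theorem clife_pos {X : Type} [Group X] [Finite X] (A B : Subgroup X) :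
    0 < A.relIndex B :=
  Nat.pos_of_ne_zero (Subgroup.index_ne_zero_of_finite (H := A.subgroupOf B))

private theorem clife_two {X : Type} [Group X] [Finite X] {A B : Subgroup X} (h : A < B) :
    2 ≤ A.relIndex B := by
  have h1 := clife_pos A B
  have h2 : A.relIndex B ≠ 1 := fun h3 => h.not_ge (Subgroup.relIndex_eq_one.1 h3)
  omega

private theorem clife_aux {X : Type} [Group X] [Finite X] {p : ℕ} (hp : p.Prime)
    {L T : Subgroup (MulAut X)} (hTL : T ≤ L) (hTn : ∀ l ∈ L, ∀ t ∈ T, l * t * l⁻¹ ∈ T)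
    {J N : Subgroup X} (hN : N ≤ Subgroup.center X) (n : ℕ) :
    ∀ K₀ K : Subgroup X, K₀.relIndex K = n → J ≤ K₀ → K ≤ N → (∀ l ∈ L, ∀ x ∈ K₀, l x ∈ K₀) →
      (∀ l ∈ L, ∀ x ∈ K, l x ∈ K) → Es p T K₀ K →
      ∃ H Y : Subgroup X, J ≤ Y ∧ Y < H ∧ H ≤ N ∧ (∀ l ∈ L, ∀ x ∈ H, l x ∈ H) ∧
        (∀ l ∈ L, ∀ x ∈ Y, l x ∈ Y) ∧ (∀ t ∈ T, ∀ x ∈ H, t x * x⁻¹ ∈ Y) ∧ p ∣ Y.relIndex H := by
  induction n using Nat.strong_induction_on with
  | _ n ih =>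
    intro K₀ K hn hJ hKN h0 hK hE
    by_cases hU : ∃ U : Subgroup X, K₀ ≤ U ∧ U ≤ K ∧ (∀ l ∈ L, ∀ x ∈ U, l x ∈ U) ∧ U ≠ K₀ ∧ U ≠ K
    · obtain ⟨U, h1, h2, h3, h4, h5⟩ := hU
      have h6 : K₀.relIndex U * U.relIndex K = K₀.relIndex K :=
        Subgroup.relIndex_mul_relIndex _ _ _ h1 h2
      have h7 := clife_two (lt_of_le_of_ne h1 (Ne.symm h4))
      have h8 := clife_two (lt_of_le_of_ne h2 h5)
      rcases es_split hp (hKN.trans hN) h1 h2 (fun t ht x hx => h3 t (hTL ht) x hx) hE with h9 | h9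
      · exact ih _ (by rw [← hn, ← h6]; nlinarith) K₀ U rfl hJ (h2.trans hKN) h0 h3 h9
      · exact ih _ (by rw [← hn, ← h6]; nlinarith) U K rfl (hJ.trans h1) hKN h3 hK h9
    · have hp1 := clife_dvd hE
      have hle := clife_le hE
      have hlt : K₀ < K := by
        refine lt_of_le_of_ne hle fun h1 => ?_
        rw [h1, Subgroup.relIndex_self, Nat.dvd_one] at hp1
        exact hp.one_lt.ne' hp1
      refine ⟨K, K₀, hJ, hlt, hKN, hK, h0, ?_, hp1⟩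
      refine es_irr hp hTL hTn (hKN.trans hN) hlt h0 hK (fun U h1 h2 h3 => ?_) hE
      by_contra h4
      push Not at h4
      exact hU ⟨U, h1, h2, h3, h4.1, h4.2⟩

/-- From a section centralised by `T` to an `L`-invariant one, above `J`. -/
theorem cliff2 {X : Type} [Group X] [Finite X] {p : ℕ} (hp : p.Prime) {L T : Subgroup (MulAut X)}
    (hTL : T ≤ L) (hTn : ∀ l ∈ L, ∀ t ∈ T, l * t * l⁻¹ ∈ T)
    {J N : Subgroup X} (hN : N ≤ Subgroup.center X) (hLJ : ∀ l ∈ L, ∀ x ∈ J, l x ∈ J)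
    (hLN : ∀ l ∈ L, ∀ x ∈ N, l x ∈ N) (hE : Es p T J N) :
    ∃ H Y : Subgroup X, J ≤ Y ∧ Y < H ∧ H ≤ N ∧ (∀ l ∈ L, ∀ x ∈ H, l x ∈ H) ∧
      (∀ l ∈ L, ∀ x ∈ Y, l x ∈ Y) ∧ (∀ t ∈ T, ∀ x ∈ H, t x * x⁻¹ ∈ Y) ∧ p ∣ Y.relIndex H :=
  clife_aux hp hTL hTn hN _ J N rfl le_rfl le_rfl hLJ hLN hE

end Mnf

end MP799fdf
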