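import Pool.Agent.Lib.MP_799fdf_al.Knf.KtB

/-! # Sums over values of affine functions, with values in a module -/

set_option autoImplicit false

open scoped commutatorElement

namespace MP799fdf

namespace Mnf

open Inn
open Knf (Kt exists_period)

variable {G : Type} [Group G] [Finite G] {A B : Subgroup G} [A.Normal] {hB : B.Normal}
  {hBA : ⁅B, B⁆ ≤ A} {p n : ℕ} {I : Type} [Finite I] {M : Type} [AddCommGroup M]

theorem sum_periodic [Fact p.Prime] [Module (ZMod p) M] (f : (Fin n → ZMod p) → M)
    (u : Fin n → ZMod p) (hu : u ≠ 0) (hf : ∀ v, f (v + u) = f v) : ∑ v, f v = 0 := by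
  obtain ⟨i, hi⟩ : ∃ i, u i ≠ 0 := by
    by_contra h
    push Not at h
    exact hu (funext h)
  have h1 : ∀ v, f v = ((v + u) i / u i) • f (v + u) - (v i / u i) • f v := by
    intro v
    rw [hf, Pi.add_apply, add_div, div_self hi, ← sub_smul, add_sub_cancel_left, one_smul]
  calc ∑ v, f v = ∑ v, (((v + u) i / u i) • f (v + u)) - ∑ v, ((v i / u i) • f v) := by
        rw [← Finset.sum_sub_distrib]
        exact Finset.sum_congr rfl fun v _ => h1 v
    _ = 0 := by
        rw [sub_eq_zero]
        exact Equiv.sum_comp (Equiv.addRight u) (fun v => (v i / u i) • f v)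

theorem sum_kt [Fact p.Prime] [Module (ZMod p) M] (hlt : A.relIndex B ^ Nat.card I < p ^ n)
    (x : I → (Fin n → ZMod p) → G) (hx : ∀ i, x i ∈ Kt A B hB hBA (Fin n → ZMod p))
    (Φ : (I → G ⧸ A) → M) : ∑ v, (Φ fun i => ((x i v : G) : G ⧸ A)) = 0 := by
  obtain ⟨u, hu, hper⟩ := exists_period hlt x hx
  refine sum_periodic _ u hu fun v => ?_
  exact congrArg Φ (funext fun i => hper i v)

end Mnf

end MP799fdf
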