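import Pool.Agent.Lib.MP_799fdf_al.Inf.CharS

set_option autoImplicit false

open scoped commutatorElement

namespace MP799fdf

namespace Mnf

/-- the intersection of the Sylow subgroups is characteristic -/
private theorem charB_inf {G : Type} [Group G] (p : ℕ) :
    (⨅ S : Sylow p G, (S : Subgroup G)).Characteristic := by
  rw [Subgroup.characteristic_iff_map_le]
  intro φ
  rintro _ ⟨x, hx, rfl⟩
  rw [Subgroup.mem_iInf]
  intro S
  have h1 : x ∈ (((φ : MulAut G)⁻¹ • S : Sylow p G) : Subgroup G) :=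
    (Subgroup.mem_iInf.1 hx) _
  rw [Sylow.pointwise_smul_def, Subgroup.mem_inv_pointwise_smul_iff] at h1
  exact h1

/-- a normal `p`-subgroup is contained in all the Sylow subgroups -/
private theorem charB_le {G : Type} [Group G] [Finite G] {p : ℕ} [Fact p.Prime] (N : Subgroup G)
    (hN : N.Normal) (hp : IsPGroup p N) : N ≤ ⨅ S : Sylow p G, (S : Subgroup G) := by
  obtain ⟨S0, hS0⟩ := hp.exists_le_sylow
  refine le_iInf fun S => ?_
  obtain ⟨g, rfl⟩ := MulAction.exists_smul_eq G S0 S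
  intro x hx
  rw [Sylow.coe_subgroup_smul, Subgroup.mem_pointwise_smul_iff_inv_smul_mem]
  refine hS0 ?_
  have h := hN.conj_mem x hx g⁻¹
  simpa using h

/-- the subgroup of the central elements of order dividing `p` -/
private def charBC {G : Type} [Group G] (p : ℕ) (P : Subgroup G) : Subgroup G where
  carrier := {x | x ∈ P ∧ x ^ p = 1 ∧ ∀ y ∈ P, Commute x y}
  mul_mem' {x y} hx hy := ⟨P.mul_mem hx.1 hy.1, by
    rw [(hx.2.2 y hy.1).mul_pow, hx.2.1, hy.2.1, mul_one], fun z hz =>
      (hx.2.2 z hz).mul_left (hy.2.2 z hz)⟩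
  one_mem' := ⟨P.one_mem, one_pow _, fun z _ => Commute.one_left z⟩
  inv_mem' {x} hx := ⟨P.inv_mem hx.1, by rw [inv_pow, hx.2.1, inv_one], fun z hz =>
    (hx.2.2 z hz).inv_left⟩

private theorem charBC_char {G : Type} [Group G] (p : ℕ) (P : Subgroup G)
    (hP : P.Characteristic) : (charBC p P).Characteristic := by
  rw [Subgroup.characteristic_iff_map_le]
  intro φ
  rintro _ ⟨x, hx, rfl⟩
  obtain ⟨h1, h2, h3⟩ := hx
  have hm : ∀ (ψ : G ≃* G) (z : G), z ∈ P → ψ z ∈ P := fun ψ z hz =>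
    Subgroup.characteristic_iff_map_le.1 hP ψ (Subgroup.mem_map_of_mem ψ.toMonoidHom hz)
  refine ⟨hm φ x h1, ?_, ?_⟩
  · show (φ x) ^ p = 1
    rw [← map_pow, h2, map_one]
  · intro y hy
    show Commute (φ x) y
    have h4 := (h3 (φ.symm y) (hm φ.symm y hy)).map φ
    rwa [MulEquiv.apply_symm_apply] at h4

private theorem charBC_ne {G : Type} [Group G] [Finite G] {p : ℕ} [Fact p.Prime] (P : Subgroup G)
    (hP : IsPGroup p P) (hne : P ≠ ⊥) : ∃ x ∈ charBC p P, x ≠ 1 := by
  have : Nontrivial P := (Subgroup.nontrivial_iff_ne_bot P).2 hne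
  have : Nontrivial (Subgroup.center P) := hP.center_nontrivial
  obtain ⟨n, hn, hc⟩ := (IsPGroup.nontrivial_iff_card (hP.to_subgroup (Subgroup.center P))).1
    inferInstance
  have hd : p ∣ Nat.card (Subgroup.center P) := by
    rw [hc]
    exact dvd_pow_self p hn.ne'
  obtain ⟨x, hx⟩ := exists_prime_orderOf_dvd_card' p hd
  refine ⟨((x : P) : G), ⟨(x : P).2, ?_, ?_⟩, ?_⟩
  · have h : x ^ p = 1 := by
      rw [← hx]
      exact pow_orderOf_eq_one x
    have h' := congrArg (fun t : Subgroup.center P => ((t : P) : G)) h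
    simpa using h'
  · intro y hy
    have h := (Subgroup.mem_center_iff.1 x.2) ⟨y, hy⟩
    have h' := congrArg (fun t : P => (t : G)) h
    exact h'.symm
  · intro h
    have h1 : x = 1 := by
      apply Subtype.ext
      apply Subtype.ext
      exact h
    rw [h1, orderOf_one] at hx
    exact (Fact.out : p.Prime).one_lt.ne hx

/-- PROOF. Let `q = QuotientGroup.mk' A : Q →* Q ⧸ A`, `P = ⨅ S : Sylow p (Q ⧸ A), (S : Subgroup _)`. `P` is characteristic
(automorphisms permute the Sylow subgroups), a `p`-group, and contains the normal `p`-subgroup `B.map q` (it is contained in some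
Sylow subgroup, hence in all conjugates), so `P ≠ ⊥`. Let `C` be the subgroup of all `x ∈ P` with `x ^ p = 1` that commute with all
elements of `P`: it is characteristic in `Q ⧸ A`, abelian, of exponent `p`, and `≠ ⊥` (`IsPGroup.center_nontrivial` and Cauchy or: a nontrivial
`p`-group has elements of order `p`). `B' = C.comap q` is characteristic in `Q` (an automorphism of `Q` maps `A` to `A` and induces an
automorphism of `Q ⧸ A`, e.g. `QuotientGroup.congr`). -/
theorem exists_charB {Q : Type} [Group Q] [Finite Q] {p : ℕ} (hp : p.Prime) (A B : Subgroup Q)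
    (hA : A.Characteristic) (hB : B.Normal) (hlt : A < B) (hBp : ∀ b ∈ B, b ^ p ∈ A) :
    ∃ B' : Subgroup Q, B'.Characteristic ∧ A < B' ∧ ⁅B', B'⁆ ≤ A ∧ ∀ b ∈ B', b ^ p ∈ A := by
  have := hA
  have : Fact p.Prime := ⟨hp⟩
  have hAn : A.Normal := inferInstance
  have hN : (B.map (QuotientGroup.mk' A)).Normal :=
    hB.map _ (QuotientGroup.mk'_surjective A)
  have hNp : IsPGroup p (B.map (QuotientGroup.mk' A)) := by
    rintro ⟨_, b, hb, rfl⟩
    refine ⟨1, ?_⟩
    apply Subtype.ext
    rw [pow_one]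
    show (QuotientGroup.mk' A b) ^ p = 1
    rw [← map_pow]
    exact (QuotientGroup.eq_one_iff _).2 (hBp b hb)
  have hle := charB_le _ hN hNp
  have hPc := charB_inf (G := Q ⧸ A) p
  obtain ⟨b, hb, hbA⟩ := Set.exists_of_ssubset hlt
  have hne : (⨅ S : Sylow p (Q ⧸ A), (S : Subgroup (Q ⧸ A))) ≠ ⊥ := by
    intro h
    rw [h] at hle
    have h1 : QuotientGroup.mk' A b ∈ (⊥ : Subgroup (Q ⧸ A)) :=
      hle (Subgroup.mem_map_of_mem _ hb)
    rw [Subgroup.mem_bot] at h1
    exact hbA ((QuotientGroup.eq_one_iff _).1 h1)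
  have hPp : IsPGroup p (⨅ S : Sylow p (Q ⧸ A), (S : Subgroup (Q ⧸ A)) : Subgroup (Q ⧸ A)) := by
    obtain ⟨S⟩ : Nonempty (Sylow p (Q ⧸ A)) := inferInstance
    exact S.isPGroup'.to_le (iInf_le _ S)
  obtain ⟨y, hy, hy1⟩ := charBC_ne _ hPp hne
  have hCc := charBC_char p _ hPc
  set C := charBC p (⨅ S : Sylow p (Q ⧸ A), (S : Subgroup (Q ⧸ A))) with hC
  refine ⟨C.comap (QuotientGroup.mk' A), ?_, ?_, ?_, ?_⟩
  · rw [Subgroup.characteristic_iff_map_le]
    intro φ
    rintro _ ⟨x, hx, rfl⟩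
    have hmap : A.map φ.toMonoidHom = A := Subgroup.characteristic_iff_map_eq.1 hA φ
    have h1 := Subgroup.characteristic_iff_map_le.1 hCc (QuotientGroup.congr A A φ hmap)
      (Subgroup.mem_map_of_mem _ hx)
    exact h1
  · refine lt_of_le_of_ne ?_ ?_
    · intro a ha
      have h1 : QuotientGroup.mk' A a = 1 := (QuotientGroup.eq_one_iff _).2 ha
      rw [Subgroup.mem_comap, h1]
      exact C.one_mem
    · intro h
      obtain ⟨x, rfl⟩ := QuotientGroup.mk'_surjective A y
      have h1 : x ∈ C.comap (QuotientGroup.mk' A) := hy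
      rw [← h] at h1
      exact hy1 ((QuotientGroup.eq_one_iff _).2 h1)
  · rw [Subgroup.commutator_le]
    intro x hx z hz
    rw [← QuotientGroup.eq_one_iff]
    have h1 : Commute (QuotientGroup.mk' A x) (QuotientGroup.mk' A z) := hx.2.2 _ hz.1
    show QuotientGroup.mk' A ⁅x, z⁆ = 1
    rw [map_commutatorElement]
    exact commutatorElement_eq_one_iff_commute.2 h1
  · intro x hx
    rw [← QuotientGroup.eq_one_iff]
    show QuotientGroup.mk' A (x ^ p) = 1
    rw [map_pow]
    exact hx.2.1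

end Mnf

end MP799fdf
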