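import Pool.Agent.Lib.MP_799fdf_al.Mnf.Defs

set_option autoImplicit false

open scoped commutatorElement

namespace MP799fdf

namespace Mnf

open Inn

/-- conjugation -/
private def fixA_hom {G : Type} [Group G] (B W : Subgroup G)
    (hW : ∀ b ∈ B, ∀ w ∈ W, b * w * b⁻¹ ∈ W) : B →* MulAut W where
  toFun b :=
    { toFun := fun w => ⟨(b : G) * w * (b : G)⁻¹, hW b b.2 w w.2⟩
      invFun := fun w => ⟨(b : G)⁻¹ * w * (b : G), by
        have h := hW (b : G)⁻¹ (B.inv_mem b.2) w w.2
        rwa [inv_inv] at h⟩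
      left_inv := fun w => by
        apply Subtype.ext
        show (b : G)⁻¹ * ((b : G) * w * (b : G)⁻¹) * (b : G) = w
        group
      right_inv := fun w => by
        apply Subtype.ext
        show (b : G) * ((b : G)⁻¹ * w * (b : G)) * (b : G)⁻¹ = w
        group
      map_mul' := fun w w' => by
        apply Subtype.ext
        show (b : G) * (w * w' : G) * (b : G)⁻¹ =
          ((b : G) * w * (b : G)⁻¹) * ((b : G) * w' * (b : G)⁻¹)
        group }
  map_one' := by
    apply MulEquiv.ext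
    intro w
    apply Subtype.ext
    show (1 : G) * w * (1 : G)⁻¹ = w
    group
  map_mul' b b' := by
    apply MulEquiv.ext
    intro w
    apply Subtype.ext
    show ((b : G) * b') * w * ((b : G) * b')⁻¹ = (b : G) * ((b' : G) * w * (b' : G)⁻¹) * (b : G)⁻¹
    group

private theorem fixA_hom_apply {G : Type} [Group G] (B W : Subgroup G)
    (hW : ∀ b ∈ B, ∀ w ∈ W, b * w * b⁻¹ ∈ W) (b : B) (w : W) :
    ((fixA_hom B W hW b w : W) : G) = (b : G) * w * (b : G)⁻¹ := rfl

/-- PROOF. Conjugation is a homomorphism `φ : B →* MulAut W`; every element of its range satisfies `g ^ p = 1` (`hBp`), so the range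
is a `p`-group; it acts on `W`, `p` divides `Nat.card W` (`hWp`, `hW1`), and it fixes `1`; so it fixes another element
(`IsPGroup.exists_fixed_point_of_prime_dvd_card_of_fixed_point`). -/
theorem exists_fix {G : Type} [Group G] [Finite G] {p : ℕ} (hp : p.Prime) (B W : Subgroup G)
    (hW : ∀ b ∈ B, ∀ w ∈ W, b * w * b⁻¹ ∈ W) (hWp : ∀ w ∈ W, w ^ p = 1) (hW1 : W ≠ ⊥)
    (hBp : ∀ b ∈ B, ∀ w ∈ W, b ^ p * w = w * b ^ p) : ∃ w ∈ W, w ≠ 1 ∧ ∀ b ∈ B, b * w = w * b := by
  have hF : Fact p.Prime := ⟨hp⟩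
  have hP : IsPGroup p (fixA_hom B W hW).range := by
    rintro ⟨g, b, rfl⟩
    refine ⟨1, ?_⟩
    apply Subtype.ext
    rw [pow_one]
    show (fixA_hom B W hW b) ^ p = 1
    rw [← map_pow]
    apply MulEquiv.ext
    intro w
    apply Subtype.ext
    rw [fixA_hom_apply]
    show ((b ^ p : B) : G) * w * ((b ^ p : B) : G)⁻¹ = w
    rw [Subgroup.coe_pow, hBp b b.2 w w.2, mul_inv_cancel_right]
  have hcard : p ∣ Nat.card W := by
    obtain ⟨w, hw, hw1⟩ := W.bot_or_exists_ne_one.resolve_left hW1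
    have h1 : orderOf (⟨w, hw⟩ : W) = p := orderOf_eq_prime
      (Subtype.ext (hWp w hw)) (fun h => hw1 (congrArg Subtype.val h))
    rw [← h1]
    exact orderOf_dvd_natCard _
  have h1 : (1 : W) ∈ MulAction.fixedPoints (fixA_hom B W hW).range W := by
    intro g
    exact smul_one g
  obtain ⟨w, hw, hne⟩ := hP.exists_fixed_point_of_prime_dvd_card_of_fixed_point W hcard h1
  refine ⟨w, w.2, fun h => hne (Subtype.ext h.symm), fun b hb => ?_⟩
  have h2 := hw ⟨fixA_hom B W hW ⟨b, hb⟩, ⟨b, hb⟩, rfl⟩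
  have h3 : b * (w : G) * b⁻¹ = w := congrArg Subtype.val h2
  calc b * (w : G) = b * (w : G) * b⁻¹ * b := by group
    _ = w * b := by rw [h3]

end Mnf

end MP799fdf
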