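import Pool.Agent.Lib.MP_799fdf_al.Mnf.Mk
import Pool.Agent.Lib.MP_799fdf_al.Mnf.CharB
import Pool.Agent.Lib.MP_799fdf_al.Mnf.FixA
import Pool.Agent.Lib.MP_799fdf_al.Knf.Setp

set_option autoImplicit false

open scoped commutatorElement

namespace MP799fdf

namespace Mnf

open Inn

private theorem setpA_perf_top {K : Type} [Group K] {L : Subgroup K} (h : ⁅L, L⁆ = L) :
    ⁅(⊤ : Subgroup L), (⊤ : Subgroup L)⁆ = ⊤ := by
  apply Subgroup.map_injective L.subtype_injective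
  rw [Subgroup.map_commutator, ← MonoidHom.range_eq_map, Subgroup.range_subtype, h]

private theorem setpA_perf {G : Type} [Group G] {R Z : Subgroup G} [Z.Normal]
    (hcen : ∀ g : G, g ∈ Z ↔ ∀ r ∈ R, g * r = r * g) (hperf : ⁅R, R⁆ = R) (α β : R ≃* R)
    (hαβ : ∀ l : R, (((α l : R) : G) : G ⧸ Z) = (((β l : R) : G) : G ⧸ Z)) : α = β := by
  have hz : ∀ l : R, ∀ r ∈ R, (((β l : R) : G)⁻¹ * ((α l : R) : G)) * r =
      r * (((β l : R) : G)⁻¹ * ((α l : R) : G)) := by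
    intro l
    exact (hcen _).1 (QuotientGroup.eq.1 (hαβ l).symm)
  have key : (⊤ : Subgroup R) ≤ α.toMonoidHom.eqLocus β.toMonoidHom := by
    rw [← setpA_perf_top hperf, Subgroup.commutator_le]
    intro x _ y _
    show α ⁅x, y⁆ = β ⁅x, y⁆
    apply Subtype.ext
    rw [map_commutatorElement, map_commutatorElement]
    have hx := hz x
    have hy := hz y
    obtain ⟨u, hu⟩ : ∃ u : G, ((β x : R) : G)⁻¹ * ((α x : R) : G) = u := ⟨_, rfl⟩
    obtain ⟨v, hv⟩ : ∃ v : G, ((β y : R) : G)⁻¹ * ((α y : R) : G) = v := ⟨_, rfl⟩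
    have ex : ((α x : R) : G) = (β x : R) * u := by rw [← hu]; group
    have ey : ((α y : R) : G) = (β y : R) * v := by rw [← hv]; group
    rw [hu] at hx
    rw [hv] at hy
    have hvR : v ∈ R := by
      rw [← hv]
      exact R.mul_mem (R.inv_mem (β y).2) (α y).2
    have d1 : Commute u ((β x : R) : G) := hx _ (β x).2
    have d2 : Commute u ((β y : R) : G) := hx _ (β y).2
    have d3 : Commute u v := hx _ hvR
    have d4 : Commute v ((β x : R) : G) := hy _ (β x).2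
    have d5 : Commute v ((β y : R) : G) := hy _ (β y).2
    have e1 : ((⁅α x, α y⁆ : R) : G) = ⁅((α x : R) : G), ((α y : R) : G)⁆ := rfl
    have e2 : ((⁅β x, β y⁆ : R) : G) = ⁅((β x : R) : G), ((β y : R) : G)⁆ := rfl
    rw [e1, e2, ex, ey]
    generalize ((β x : R) : G) = a at *
    generalize ((β y : R) : G) = b at *
    have c2 : Commute v a⁻¹ := Commute.inv_right d4
    calc ⁅a * u, b * v⁆ = a * (u * (b * v)) * u⁻¹ * a⁻¹ * v⁻¹ * b⁻¹ := by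
          rw [commutatorElement_def]
          group
      _ = a * b * (v * a⁻¹) * v⁻¹ * b⁻¹ := by
          rw [(d2.mul_right d3).eq]
          group
      _ = ⁅a, b⁆ := by
          rw [c2.eq, commutatorElement_def]
          group
  ext l
  exact congrArg Subtype.val (key (Subgroup.mem_top l))

private theorem setpA_RZ {G : Type} [Group G] {R H Z : Subgroup G} [Z.Normal]
    (hloc : Loc R H) (hcen : ∀ g : G, g ∈ Z ↔ ∀ r ∈ R, g * r = r * g) (r : G) (hr : r ∈ R)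
    (hz : r ∈ Z) : r ∈ H := by
  have hR := hloc.nR
  have hn : (R ⊓ Z).Normal := Subgroup.normal_inf_normal R Z
  rcases hloc.max _ hn inf_le_left with h1 | h1
  · exact h1 ⟨hr, hz⟩
  · exfalso
    have h2 : R ≤ Z := inf_eq_left.1 h1
    have h3 : ⁅R, R⁆ = ⊥ := by
      rw [Subgroup.commutator_eq_bot_iff_le_centralizer]
      intro x hx
      rw [Subgroup.mem_centralizer_iff]
      intro y hy
      exact (hcen y).1 (h2 hy) x hx
    rw [hloc.perf] at h3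
    have h4 := hloc.lt
    rw [h3] at h4
    exact not_lt_bot h4

/-- The first case of `exists_setup`: `A₀` is characteristic modulo `Z`.

PROOF. `Knf.exists_elem` gives a normal `B₁` with `A₀ < B₁`, `⁅B₁, B₁⁆ ≤ A₀`, `b ^ p ∈ A₀`. `exists_charB` for `G ⧸ Z`, `A₀.map (mk' Z)`
(characteristic by `hc`) and `B₁.map (mk' Z)` gives `B'`; `B := B'.comap (mk' Z)` is normal, `A₀ < B`, `⁅B, B⁆ ≤ A₀`, `b ^ p ∈ A₀`, and
characteristic modulo `Z` (see the second case of `Knf.exists_setup` in `Knf/Setp.lean` for all these transfers). Let `W₁` be the subgroup of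
`R` of all `w` with `(w : G) ∈ H`, `w ^ p = 1` and `τ w = w` for all lifts `τ` of all `σ` that are trivial modulo `A₀` (it is a subgroup as `H` is
central in `R`). `A₀` centralises `W₁`: conjugation by `a ∈ A₀` (`MulAut.conjNormal a : R ≃* R`) is a lift of `MulAut.conj (a : G ⧸ Z)`,
which is trivial modulo `A₀` (see the proof of `Knf.Setup.B_central` in `Knf/BasB.lean`). `W₁` is invariant under all lifts `τ'` of all `σ'`:
`(τ' w : G) ∈ H` as `H = R ⊓ Z` (see `Knf.Setup.RZ` in `Knf/Defs.lean` for `R ⊓ Z ≤ H`), and if `τ` is a lift of `σ`, `σ` trivial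
modulo `A₀`, then `τ'⁻¹ τ τ'` is a lift of `σ'⁻¹ σ σ'`, which is trivial modulo `A₀` by `hc`, so fixes `w`, and `τ (τ' w) = τ' w`.
Let `W = {w ∈ W₁ | ∀ b ∈ B, b * w = w * b}`: it is invariant under the lifts (for `b ∈ B` choose `b'` with `σ' (b' : G ⧸ Z) = (b : G ⧸ Z)`;
`b' ∈ B` as `B` is characteristic modulo `Z`; the two lifts `r ↦ b (τ' r) b⁻¹` and `r ↦ τ' (b' r b'⁻¹)` agree modulo `Z`, so they are
equal, because `R` is perfect and `R ⊓ Z` is central in `R`: compare `Knf.Setup.perf_hom` in `Knf/BasA.lean`, whose proof uses only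
`S.cen`). `W` contains an element `w₀ ≠ 1` : `exists_fix` for `B` and `W₁.map R.subtype`, which is `≠ ⊥` because it contains `h`. Then
`setup_mk`. -/
theorem exists_setupA {G : Type} [Group G] [Finite G] {p : ℕ} (hp : p.Prime)
    (R H Z A₀ B₀ : Subgroup G) [Z.Normal] (hloc : Loc R H) (hHZ : H ≤ Z)
    (hcen : ∀ g : G, g ∈ Z ↔ ∀ r ∈ R, g * r = r * g)
    (huniq : ∀ L N : Subgroup G, Loc L N → N.relIndex L = H.relIndex R → L = R)
    (hA₀ : A₀.Normal) (hB₀ : B₀.Normal) (hRA : R ≤ A₀) (hZA : Z ≤ A₀) (hAB : A₀ < B₀)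
    (hBA : ⁅B₀, B₀⁆ ≤ A₀) (hd : p ∣ A₀.relIndex B₀) (h : R) (hH : (h : G) ∈ H) (h1 : h ≠ 1)
    (hhp : h ^ p = 1)
    (hnt : ∀ σ : (G ⧸ Z) ≃* (G ⧸ Z), ∃ τ : R ≃* R,
      ∀ r : R, (((τ r : R) : G) : G ⧸ Z) = σ ((r : G) : G ⧸ Z))
    (hc : ∀ (σ : (G ⧸ Z) ≃* (G ⧸ Z)) (x y : G), σ (x : G ⧸ Z) = (y : G ⧸ Z) → x ∈ A₀ → y ∈ A₀)
    (hf : ∀ (σ : (G ⧸ Z) ≃* (G ⧸ Z)) (τ : R ≃* R),
      (∀ x y : G, σ (x : G ⧸ Z) = (y : G ⧸ Z) → x⁻¹ * y ∈ A₀) →
        (∀ r : R, (((τ r : R) : G) : G ⧸ Z) = σ ((r : G) : G ⧸ Z)) → τ h = h) :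
    ∃ (A B : Subgroup G) (M : Type) (_ : AddCommGroup M) (_ : Module (ZMod p) M) (θ : M → R)
      (m₀ : M), Setup G p R H Z A B θ m₀ := by
  have hRn : R.Normal := hloc.nR
  obtain ⟨B₁, hB₁, hAB₁, -, hBA₁, hBp₁⟩ := Knf.exists_elem hp A₀ B₀ hA₀ hB₀ hAB hBA hd
  have hsurj : Function.Surjective (QuotientGroup.mk' Z) := QuotientGroup.mk'_surjective Z
  have hfin : Finite (G ⧸ Z) := Finite.of_surjective _ hsurj
  have hkerA : (QuotientGroup.mk' Z).ker ≤ A₀ := by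
    rw [QuotientGroup.ker_mk']
    exact hZA
  have hcomapA : (A₀.map (QuotientGroup.mk' Z)).comap (QuotientGroup.mk' Z) = A₀ :=
    Subgroup.comap_map_eq_self hkerA
  have hlt : A₀.map (QuotientGroup.mk' Z) < B₁.map (QuotientGroup.mk' Z) := by
    refine lt_of_le_of_ne (Subgroup.map_mono hAB₁.le) fun e => ?_
    refine absurd hAB₁ (not_lt_of_ge ?_)
    have h5 : B₁ ≤ (A₀.map (QuotientGroup.mk' Z)).comap (QuotientGroup.mk' Z) := by
      rw [← Subgroup.map_le_iff_le_comap, e]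
    rwa [Subgroup.comap_map_eq_self hkerA] at h5
  have hpow : ∀ b ∈ B₁.map (QuotientGroup.mk' Z), b ^ p ∈ A₀.map (QuotientGroup.mk' Z) := by
    intro b hb
    obtain ⟨x, hx, rfl⟩ := Subgroup.mem_map.1 hb
    rw [← map_pow]
    exact Subgroup.mem_map_of_mem _ (hBp₁ x hx)
  have hAch : (A₀.map (QuotientGroup.mk' Z)).Characteristic := by
    rw [Subgroup.characteristic_iff_map_le]
    intro σ y hy
    obtain ⟨x, hx, rfl⟩ := Subgroup.mem_map.1 hy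
    obtain ⟨a, ha, rfl⟩ := Subgroup.mem_map.1 hx
    obtain ⟨b, hb⟩ := hsurj (σ ((QuotientGroup.mk' Z) a))
    have hb' : σ (a : G ⧸ Z) = (b : G ⧸ Z) := hb.symm
    exact Subgroup.mem_map.2 ⟨b, hc σ a b hb' ha, hb⟩
  obtain ⟨B', hB', hAB', hBA', hBp'⟩ := exists_charB hp (A₀.map (QuotientGroup.mk' Z))
    (B₁.map (QuotientGroup.mk' Z)) hAch (hB₁.map _ hsurj) hlt hpow
  obtain ⟨B, hBdef⟩ : ∃ B : Subgroup G, B = B'.comap (QuotientGroup.mk' Z) := ⟨_, rfl⟩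
  have hmemB : ∀ b : G, b ∈ B ↔ (b : G ⧸ Z) ∈ B' := by
    intro b
    rw [hBdef]
    exact Iff.rfl
  have hmemA : ∀ a : G, (a : G ⧸ Z) ∈ A₀.map (QuotientGroup.mk' Z) → a ∈ A₀ := by
    intro a ha
    rw [← hcomapA]
    exact ha
  have hBn : B.Normal := by
    rw [hBdef]
    exact (Subgroup.normal_of_characteristic B').comap _
  have hABlt : A₀ < B := by
    rw [hBdef]
    have := (Subgroup.comap_lt_comap_of_surjective hsurj).2 hAB'
    rwa [hcomapA] at this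
  have hBAB : ⁅B, B⁆ ≤ A₀ := by
    rw [Subgroup.commutator_le]
    intro x hx y hy
    apply hmemA
    have h2 : ((⁅x, y⁆ : G) : G ⧸ Z) = ⁅(x : G ⧸ Z), (y : G ⧸ Z)⁆ :=
      map_commutatorElement (QuotientGroup.mk' Z) x y
    rw [h2]
    exact hBA' (Subgroup.commutator_mem_commutator ((hmemB x).1 hx) ((hmemB y).1 hy))
  have hBpB : ∀ b ∈ B, b ^ p ∈ A₀ := by
    intro b hb
    apply hmemA
    exact hBp' _ ((hmemB b).1 hb)
  have hBchar : ∀ (σ : (G ⧸ Z) ≃* (G ⧸ Z)) (x y : G), σ (x : G ⧸ Z) = (y : G ⧸ Z) →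
      x ∈ B → y ∈ B := by
    intro σ x y hxy hx
    rw [hmemB] at hx ⊢
    rw [← hxy]
    have h5 := hB'.fixed σ
    rw [← h5] at hx
    exact hx
  -- H is stable under lifts
  have hHlift : ∀ (σ : (G ⧸ Z) ≃* (G ⧸ Z)) (τ : R ≃* R),
      (∀ r : R, (((τ r : R) : G) : G ⧸ Z) = σ ((r : G) : G ⧸ Z)) →
        ∀ w : R, (w : G) ∈ H → ((τ w : R) : G) ∈ H := by
    intro σ τ hτ w hw
    refine setpA_RZ hloc hcen _ (τ w).2 ?_
    have h2 : ((w : G) : G ⧸ Z) = 1 := (QuotientGroup.eq_one_iff _).2 (hHZ hw)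
    have h3 := hτ w
    rw [h2, map_one] at h3
    exact (QuotientGroup.eq_one_iff _).1 h3
  have hHc : ∀ w : R, (w : G) ∈ H → ∀ r : R, Commute w r := by
    intro w hw r
    apply Subtype.ext
    exact (hcen _).1 (hHZ hw) r r.2
  let W₁ : Subgroup R :=
    { carrier := {w | (w : G) ∈ H ∧ w ^ p = 1 ∧ ∀ (σ : (G ⧸ Z) ≃* (G ⧸ Z)) (τ : R ≃* R),
        (∀ x y : G, σ (x : G ⧸ Z) = (y : G ⧸ Z) → x⁻¹ * y ∈ A₀) →
          (∀ r : R, (((τ r : R) : G) : G ⧸ Z) = σ ((r : G) : G ⧸ Z)) → τ w = w}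
      one_mem' := ⟨H.one_mem, one_pow p, fun _ τ _ _ => map_one τ⟩
      mul_mem' := by
        rintro x y ⟨hx1, hx2, hx3⟩ ⟨hy1, hy2, hy3⟩
        refine ⟨H.mul_mem hx1 hy1, ?_, fun σ τ hσ hτ => ?_⟩
        · rw [(hHc x hx1 y).mul_pow, hx2, hy2, one_mul]
        · rw [map_mul, hx3 σ τ hσ hτ, hy3 σ τ hσ hτ]
      inv_mem' := by
        rintro x ⟨hx1, hx2, hx3⟩
        refine ⟨H.inv_mem hx1, ?_, fun σ τ hσ hτ => ?_⟩
        · rw [inv_pow, hx2, inv_one]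
        · rw [map_inv, hx3 σ τ hσ hτ] }
  have hmemW₁ : ∀ w : R, w ∈ W₁ ↔ ((w : G) ∈ H ∧ w ^ p = 1 ∧
      ∀ (σ : (G ⧸ Z) ≃* (G ⧸ Z)) (τ : R ≃* R),
        (∀ x y : G, σ (x : G ⧸ Z) = (y : G ⧸ Z) → x⁻¹ * y ∈ A₀) →
          (∀ r : R, (((τ r : R) : G) : G ⧸ Z) = σ ((r : G) : G ⧸ Z)) → τ w = w) :=
    fun w => Iff.rfl
  -- W₁ is stable under lifts
  have hW₁lift : ∀ (σ' : (G ⧸ Z) ≃* (G ⧸ Z)) (τ' : R ≃* R),
      (∀ r : R, (((τ' r : R) : G) : G ⧸ Z) = σ' ((r : G) : G ⧸ Z)) →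
        ∀ w ∈ W₁, τ' w ∈ W₁ := by
    intro σ' τ' hτ' w hw
    obtain ⟨hw1, hw2, hw3⟩ := (hmemW₁ w).1 hw
    refine (hmemW₁ _).2 ⟨hHlift σ' τ' hτ' w hw1, ?_, fun σ τ hσ hτ => ?_⟩
    · rw [← map_pow, hw2, map_one]
    · have h2 := hw3 ((σ'.trans σ).trans σ'.symm) ((τ'.trans τ).trans τ'.symm) ?_ ?_
      · have h3 : τ'.symm (τ (τ' w)) = w := h2
        rwa [MulEquiv.symm_apply_eq] at h3
      · intro x y hxy
        have h3 : σ'.symm (σ (σ' (x : G ⧸ Z))) = (y : G ⧸ Z) := hxy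
        rw [MulEquiv.symm_apply_eq] at h3
        obtain ⟨x', hx'⟩ := hsurj (σ' (x : G ⧸ Z))
        obtain ⟨y', hy'⟩ := hsurj (σ' (y : G ⧸ Z))
        have hx'' : (x' : G ⧸ Z) = σ' (x : G ⧸ Z) := hx'
        have hy'' : (y' : G ⧸ Z) = σ' (y : G ⧸ Z) := hy'
        have h4 := hσ x' y' (by rw [hx'', hy'', h3])
        refine hc σ'.symm (x'⁻¹ * y') (x⁻¹ * y) ?_ h4
        rw [MulEquiv.symm_apply_eq, QuotientGroup.mk_mul, QuotientGroup.mk_mul,
          QuotientGroup.mk_inv, QuotientGroup.mk_inv, map_mul, map_inv, hx'', hy'']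
      · intro r
        show (((τ'.symm (τ (τ' r)) : R) : G) : G ⧸ Z) = σ'.symm (σ (σ' ((r : G) : G ⧸ Z)))
        rw [← hτ' r, ← hτ (τ' r), eq_comm, MulEquiv.symm_apply_eq, ← hτ', MulEquiv.apply_symm_apply]
  -- conjugation is a lift
  have hconj : ∀ (g : G) (r : R), (((MulAut.conjNormal g r : R) : G) : G ⧸ Z) =
      MulAut.conj (g : G ⧸ Z) ((r : G) : G ⧸ Z) := by
    intro g r
    rw [MulAut.conjNormal_apply, MulAut.conj_apply]
    rfl
  have hAcent : ∀ a ∈ A₀, ∀ w ∈ W₁, a * (w : G) = (w : G) * a := by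
    intro a ha w hw
    have h2 := ((hmemW₁ w).1 hw).2.2 (MulAut.conj (a : G ⧸ Z)) (MulAut.conjNormal a)
      (fun x y hxy => by
        have h3 : ((a * x * a⁻¹ : G) : G ⧸ Z) = (y : G ⧸ Z) := hxy
        have h4 : (a * x * a⁻¹)⁻¹ * y ∈ A₀ := hZA (QuotientGroup.eq.1 h3)
        have h5 : x⁻¹ * a * x⁻¹⁻¹ ∈ A₀ := hA₀.conj_mem a ha x⁻¹
        have h6 := A₀.mul_mem (A₀.mul_mem h5 (A₀.inv_mem ha)) h4
        have h7 : x⁻¹ * a * x⁻¹⁻¹ * a⁻¹ * ((a * x * a⁻¹)⁻¹ * y) = x⁻¹ * y := by group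
        rwa [h7] at h6) (hconj a)
    have h3 := congrArg (fun r : R => (r : G)) h2
    simp only [MulAut.conjNormal_apply] at h3
    exact mul_inv_eq_iff_eq_mul.1 h3
  let W : Subgroup R :=
    { carrier := {w | w ∈ W₁ ∧ ∀ b ∈ B, b * (w : G) = (w : G) * b}
      one_mem' := ⟨W₁.one_mem, fun b _ => by rw [Subgroup.coe_one, mul_one, one_mul]⟩
      mul_mem' := by
        rintro x y ⟨hx1, hx2⟩ ⟨hy1, hy2⟩
        refine ⟨W₁.mul_mem hx1 hy1, fun b hb => ?_⟩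
        rw [Subgroup.coe_mul, ← mul_assoc, hx2 b hb, mul_assoc, hy2 b hb, mul_assoc]
      inv_mem' := by
        rintro x ⟨hx1, hx2⟩
        refine ⟨W₁.inv_mem hx1, fun b hb => ?_⟩
        rw [Subgroup.coe_inv]
        have : Commute b (x : G) := hx2 b hb
        exact this.inv_right }
  have hmemW : ∀ w : R, w ∈ W ↔ (w ∈ W₁ ∧ ∀ b ∈ B, b * (w : G) = (w : G) * b) :=
    fun w => Iff.rfl
  have hWlift : ∀ (σ' : (G ⧸ Z) ≃* (G ⧸ Z)) (τ' : R ≃* R),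
      (∀ r : R, (((τ' r : R) : G) : G ⧸ Z) = σ' ((r : G) : G ⧸ Z)) →
        ∀ w ∈ W, τ' w ∈ W := by
    intro σ' τ' hτ' w hw
    obtain ⟨hw1, hw2⟩ := (hmemW w).1 hw
    refine (hmemW _).2 ⟨hW₁lift σ' τ' hτ' w hw1, fun b hb => ?_⟩
    obtain ⟨b', hb'⟩ := hsurj (σ'.symm (b : G ⧸ Z))
    have hb'' : (b' : G ⧸ Z) = σ'.symm (b : G ⧸ Z) := hb'
    have hb3 : σ' (b' : G ⧸ Z) = (b : G ⧸ Z) := by
      rw [hb'', MulEquiv.apply_symm_apply]
    have hb'B : b' ∈ B := hBchar σ'.symm b b' hb''.symm hb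
    have h2 : τ'.trans (MulAut.conjNormal b) = (MulAut.conjNormal b').trans τ' := by
      apply setpA_perf hcen hloc.perf
      intro r
      show (((MulAut.conjNormal b (τ' r) : R) : G) : G ⧸ Z) =
        (((τ' (MulAut.conjNormal b' r) : R) : G) : G ⧸ Z)
      rw [hconj, hτ', hτ', hconj, MulAut.conj_apply, MulAut.conj_apply, map_mul, map_mul, map_inv,
        hb3]
    have h3 : MulAut.conjNormal b (τ' w) = τ' (MulAut.conjNormal b' w) :=
      congrArg (fun e : R ≃* R => e w) h2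
    have h4 : MulAut.conjNormal b' w = w := by
      apply Subtype.ext
      rw [MulAut.conjNormal_apply, hw2 b' hb'B, mul_inv_cancel_right]
    rw [h4] at h3
    have h5 := congrArg (fun r : R => (r : G)) h3
    simp only [MulAut.conjNormal_apply] at h5
    exact mul_inv_eq_iff_eq_mul.1 h5
  obtain ⟨w, hwm, hw1, hwB⟩ := exists_fix hp B (W₁.map R.subtype) (by
    intro b hb w hw
    obtain ⟨w', hw', rfl⟩ := Subgroup.mem_map.1 hw
    refine Subgroup.mem_map.2 ⟨MulAut.conjNormal b w',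
      hW₁lift (MulAut.conj (b : G ⧸ Z)) (MulAut.conjNormal b) (hconj b) w' hw', ?_⟩
    exact MulAut.conjNormal_apply b w') (by
    intro w hw
    obtain ⟨w', hw', rfl⟩ := Subgroup.mem_map.1 hw
    rw [← map_pow, ((hmemW₁ w').1 hw').2.1, map_one]) (by
    intro hbot
    have h2 : R.subtype h ∈ W₁.map R.subtype :=
      Subgroup.mem_map_of_mem _ ((hmemW₁ h).2 ⟨hH, hhp, hf⟩)
    rw [hbot, Subgroup.mem_bot] at h2
    apply h1
    apply Subtype.ext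
    exact h2) (by
    intro b hb w hw
    obtain ⟨w', hw', rfl⟩ := Subgroup.mem_map.1 hw
    exact hAcent _ (hBpB b hb) w' hw')
  obtain ⟨w₀, hw₀, rfl⟩ := Subgroup.mem_map.1 hwm
  have hw₀W : w₀ ∈ W := (hmemW w₀).2 ⟨hw₀, hwB⟩
  refine ⟨A₀, B, setup_mk hp hloc hcen hHZ huniq hA₀ hBn hRA hZA hABlt hBAB hBpB hc W
    (fun w hw => ((hmemW₁ w).1 ((hmemW w).1 hw).1).1)
    (fun w hw => ((hmemW₁ w).1 ((hmemW w).1 hw).1).2.1)
    (fun w hw => ((hmemW w).1 hw).2) (fun σ => ?_) w₀ hw₀W ?_ ?_⟩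
  · obtain ⟨τ, hτ⟩ := hnt σ
    exact ⟨τ, hτ, hWlift σ τ hτ⟩
  · intro e
    apply hw1
    rw [e, map_one]
  · intro σ hσ τ hτ
    exact ((hmemW₁ w₀).1 hw₀).2.2 σ τ hσ hτ

end Mnf

end MP799fdf
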