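import Pool.Agent.Lib.MP_799fdf_al.Mnf.QuoB3
import Pool.Agent.Lib.MP_799fdf_al.Mnf.SetpA
import Pool.Agent.Lib.MP_799fdf_al.Mnf.Fin

set_option autoImplicit false

open scoped commutatorElement

namespace MP799fdf

namespace Mnf

open Inn

/-- The infinite direction, for a quotient. -/
theorem inf_gen {G : Type} [Group G] [Finite G] {R N D Z A B : Subgroup G} [D.Normal] [Z.Normal]
    {p : ℕ} (hp : p.Prime) (hloc : Loc R N) (hZ : ∀ g : G, g ∈ Z ↔ ∀ r ∈ R, g * r = r * g)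
    (hNZ : N ≤ Z) (hDZ : D ≤ Z) (hRD : R ⊓ D ≤ N)
    (hother : ∀ L M : Subgroup G, Loc L M → M.relIndex L = N.relIndex R → L = R ∨ L ≤ D)
    (hlift : ∀ σ : (G ⧸ Z) ≃* (G ⧸ Z), ∃ τ : R ≃* R, Cry.Lift σ τ)
    (hY : ∀ (σ : (G ⧸ Z) ≃* (G ⧸ Z)) (τ : R ≃* R), Cry.Lift σ τ →
      ∀ r : R, (r : G) ∈ D → ((τ r : R) : G) ∈ D)
    (hA : A.Normal) (hB : B.Normal) (hRA : R ≤ A) (hZA : Z ≤ A) (hAB : A < B) (hBA : ⁅B, B⁆ ≤ A)
    (hpB : p ∣ A.relIndex B)
    (hc : ∀ (σ : (G ⧸ Z) ≃* (G ⧸ Z)) (x y : G), σ (x : G ⧸ Z) = (y : G ⧸ Z) → x ∈ A → y ∈ A)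
    (h : R) (hN : (h : G) ∈ N) (hD : (h : G) ∉ D) (hhp : (h : G) ^ p ∈ D)
    (hfix : ∀ (σ : (G ⧸ Z) ≃* (G ⧸ Z)) (τ : R ≃* R),
      (∀ x y : G, σ (x : G ⧸ Z) = (y : G ⧸ Z) → x⁻¹ * y ∈ A) → Cry.Lift σ τ →
        ((τ h : R) : G) * (h : G)⁻¹ ∈ D) :
    {F : Formation | F.IsSub (form G)}.Infinite := by
  have hsurj : Function.Surjective (QuotientGroup.mk' D) := QuotientGroup.mk'_surjective D
  have hZn' : (Z.map (QuotientGroup.mk' D)).Normal :=
    Subgroup.Normal.map inferInstance _ hsurj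
  have hDA : D ≤ A := hDZ.trans hZA
  have hRk : ¬ R ≤ (QuotientGroup.mk' D).ker := by
    rw [QuotientGroup.ker_mk']
    intro e
    exact absurd hloc.lt (not_lt_of_ge ((le_inf le_rfl e).trans hRD))
  have hloc' := loc_map (QuotientGroup.mk' D) hsurj hloc hRk
  obtain ⟨h', hh'⟩ : ∃ h' : R.map (QuotientGroup.mk' D), (h' : G ⧸ D) = ((h : G) : G ⧸ D) :=
    ⟨⟨((h : G) : G ⧸ D), Subgroup.mem_map_of_mem _ h.2⟩, rfl⟩
  have hex := exists_setupA hp (R.map (QuotientGroup.mk' D))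
    (N.map (QuotientGroup.mk' D)) (Z.map (QuotientGroup.mk' D)) (A.map (QuotientGroup.mk' D))
    (B.map (QuotientGroup.mk' D)) hloc' (Subgroup.map_mono hNZ)
    (quo_cen3 hloc hDZ hNZ hZ)
    (fun L M hL hi => quo_uniq3 hRD hloc hother L M hL hi) (hA.map _ hsurj) (hB.map _ hsurj)
    (Subgroup.map_mono hRA) (Subgroup.map_mono hZA)
    (by
      refine lt_of_le_of_ne (Subgroup.map_mono hAB.le) fun e => hAB.ne ?_
      have h1 := congrArg (Subgroup.comap (QuotientGroup.mk' D)) e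
      rw [Subgroup.comap_map_eq, Subgroup.comap_map_eq, QuotientGroup.ker_mk',
        sup_eq_left.2 hDA, sup_eq_left.2 (hDA.trans hAB.le)] at h1
      exact h1)
    (by
      rw [← Subgroup.map_commutator]
      exact Subgroup.map_mono hBA)
    (by rw [Crt.quo_rel hDA hAB.le]; exact hpB)
    h' (by rw [hh']; exact Subgroup.mem_map_of_mem _ hN)
    (by
      intro e
      apply hD
      have h1 : ((h : G) : G ⧸ D) = 1 := by
        rw [← hh', e]
        rfl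
      exact (QuotientGroup.eq_one_iff _).1 h1)
    (by
      apply Subtype.ext
      rw [Subgroup.coe_pow, hh', Subgroup.coe_one, ← QuotientGroup.mk_pow]
      exact (QuotientGroup.eq_one_iff _).2 hhp)
    (fun σ' => by
      obtain ⟨-, -, -, -, h5, -⟩ := quo_lift3 hloc hDZ hZ hlift hY σ'
      exact h5)
    (by
      intro σ' x y hxy hx
      obtain ⟨σ, τ, hτ, h6, -, -⟩ := quo_lift3 hloc hDZ hZ hlift hY σ'
      obtain ⟨a, ha, rfl⟩ := Subgroup.mem_map.1 hx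
      obtain ⟨b, rfl⟩ := hsurj y
      exact Subgroup.mem_map_of_mem _ (hc σ a b ((h6 a b).2 hxy) ha))
    (by
      intro σ' τ' hσ' hτ'
      obtain ⟨σ, τ, hτ, h6, -, h7⟩ := quo_lift3 hloc hDZ hZ hlift hY σ'
      apply Subtype.ext
      rw [h7 τ' hτ' h h' hh', hh', QuotientGroup.eq]
      have h8 := hfix σ τ (fun x y hxy => by
        have h9 := hσ' _ _ ((h6 x y).1 hxy)
        have h10 : x⁻¹ * y ∈ (A.map (QuotientGroup.mk' D)).comap (QuotientGroup.mk' D) := h9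
        rw [Subgroup.comap_map_eq, QuotientGroup.ker_mk', sup_eq_left.2 hDA] at h10
        exact h10) hτ
      have hDn : D.Normal := inferInstance
      have h11 := hDn.conj_mem _ (D.inv_mem h8) ((h : G)⁻¹)
      have h12 : ((h : G)⁻¹ * (((τ h : R) : G) * (h : G)⁻¹)⁻¹ * ((h : G)⁻¹)⁻¹) =
          ((τ h : R) : G)⁻¹ * (h : G) * ((h : G)⁻¹ * (h : G)) := by group
      have h13 : (((τ h : R) : G) * (h : G)⁻¹)⁻¹ = (h : G) * ((τ h : R) : G)⁻¹ := by group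
      rw [h13] at h11
      have h14 : (h : G)⁻¹ * ((h : G) * ((τ h : R) : G)⁻¹) * ((h : G)⁻¹)⁻¹ =
          ((τ h : R) : G)⁻¹ * (h : G) := by group
      rw [h14] at h11
      exact h11)
  obtain ⟨A', B', M, iM, iM2, θ, m₀, S⟩ := hex
  exact main_inf S (QuotientGroup.mk' D) hsurj

end Mnf

end MP799fdf
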