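import Pool.Agent.Lib.MP_799fdf_al.Cry.Defs

set_option autoImplicit false

open scoped commutatorElement

namespace MP799fdf

namespace Mnf

open Inn

section

variable {G : Type} [Group G]

private theorem StB_one (R Z : Subgroup G) [Z.Normal] :
    ∃ σ : (G ⧸ Z) ≃* (G ⧸ Z), Cry.Lift σ ((1 : MulAut R) : R ≃* R) :=
  ⟨MulEquiv.refl _, fun _ => rfl⟩

private theorem StB_mul {R Z : Subgroup G} [Z.Normal] {σ σ' : (G ⧸ Z) ≃* (G ⧸ Z)}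
    {t t' : MulAut R} (h : Cry.Lift σ (t : R ≃* R)) (h' : Cry.Lift σ' (t' : R ≃* R)) :
    Cry.Lift (σ'.trans σ) ((t * t' : MulAut R) : R ≃* R) := by
  intro r
  have h1 := h (t' r)
  rw [h' r] at h1
  exact h1

private theorem StB_inv {R Z : Subgroup G} [Z.Normal] {σ : (G ⧸ Z) ≃* (G ⧸ Z)}
    {t : MulAut R} (h : Cry.Lift σ (t : R ≃* R)) :
    Cry.Lift σ.symm ((t⁻¹ : MulAut R) : R ≃* R) := by
  intro r
  apply σ.injective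
  rw [σ.apply_symm_apply]
  have h1 := h ((t⁻¹ : MulAut R) r)
  rw [MulAut.apply_inv_self] at h1
  exact h1.symm

/-- the lifts of automorphisms of `G / Z`

PROOF of the axioms. `Cry.Lift 1 1`; `Lift σ t → Lift σ' t' → Lift (σ * σ') (t * t')`; `Lift σ t → Lift σ⁻¹ t⁻¹`
(`MulAut` is a group of `≃*`; products are compositions). -/
def Lam (R Z : Subgroup G) [Z.Normal] : Subgroup (MulAut R) where
  carrier := {t | ∃ σ : (G ⧸ Z) ≃* (G ⧸ Z), Cry.Lift σ (t : R ≃* R)}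
  one_mem' := StB_one R Z
  mul_mem' := by
    rintro t t' ⟨σ, h⟩ ⟨σ', h'⟩
    exact ⟨σ'.trans σ, StB_mul h h'⟩
  inv_mem' := by
    rintro t ⟨σ, h⟩
    exact ⟨σ.symm, StB_inv h⟩

/-- the lifts of automorphisms of `G / Z` that are trivial modulo `A` -/
def LamA (R Z A : Subgroup G) [Z.Normal] (hZA : Z ≤ A) : Subgroup (MulAut R) where
  carrier := {t | ∃ σ : (G ⧸ Z) ≃* (G ⧸ Z), Cry.Lift σ (t : R ≃* R) ∧
    ∀ x y : G, σ (x : G ⧸ Z) = (y : G ⧸ Z) → x⁻¹ * y ∈ A}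
  one_mem' := by
    refine ⟨MulEquiv.refl _, fun r => rfl, fun x y hxy => hZA ?_⟩
    exact QuotientGroup.eq.1 hxy
  mul_mem' := by
    rintro t t' ⟨σ, h, hA⟩ ⟨σ', h', hA'⟩
    refine ⟨σ'.trans σ, StB_mul h h', fun x y hxy => ?_⟩
    obtain ⟨z, hz⟩ := QuotientGroup.mk_surjective (σ' (x : G ⧸ Z))
    have h1 := hA' x z hz.symm
    have h2 := hA z y (by rw [hz]; exact hxy)
    have e : x⁻¹ * y = (x⁻¹ * z) * (z⁻¹ * y) := by group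
    rw [e]
    exact A.mul_mem h1 h2
  inv_mem' := by
    rintro t ⟨σ, h, hA⟩
    refine ⟨σ.symm, StB_inv h, fun x y hxy => ?_⟩
    have h1 := hA y x (by rw [← hxy, σ.apply_symm_apply])
    have e : x⁻¹ * y = (y⁻¹ * x)⁻¹ := by group
    rw [e]
    exact A.inv_mem h1

theorem mem_lam {R Z : Subgroup G} [Z.Normal] (t : MulAut R) :
    t ∈ Lam R Z ↔ ∃ σ : (G ⧸ Z) ≃* (G ⧸ Z), Cry.Lift σ (t : R ≃* R) := Iff.rfl

theorem mem_lamA {R Z A : Subgroup G} [Z.Normal] (hZA : Z ≤ A) (t : MulAut R) :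
    t ∈ LamA R Z A hZA ↔ ∃ σ : (G ⧸ Z) ≃* (G ⧸ Z), Cry.Lift σ (t : R ≃* R) ∧
      ∀ x y : G, σ (x : G ⧸ Z) = (y : G ⧸ Z) → x⁻¹ * y ∈ A := Iff.rfl

theorem lamA_le {R Z A : Subgroup G} [Z.Normal] (hZA : Z ≤ A) : LamA R Z A hZA ≤ Lam R Z := by
  rintro t ⟨σ, h, _⟩
  exact ⟨σ, h⟩

/-- PROOF. `l * t * l⁻¹` is a lift of `σ * s * σ⁻¹`. Let this map `x` to `y` modulo `Z`, `σ⁻¹ (x : G ⧸ Z) = (x₁ : G ⧸ Z)`,
`s (x₁ : G ⧸ Z) = (x₂ : G ⧸ Z)`; `x₁⁻¹ * x₂ ∈ A`, `σ (x₁⁻¹ * x₂) = x⁻¹ * y` modulo `Z`, so `x⁻¹ * y ∈ A` by `hc`. -/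
theorem lamA_conj {R Z A : Subgroup G} [Z.Normal] (hZA : Z ≤ A)
    (hc : ∀ (σ : (G ⧸ Z) ≃* (G ⧸ Z)) (x y : G), σ (x : G ⧸ Z) = (y : G ⧸ Z) → x ∈ A → y ∈ A) :
    ∀ l ∈ Lam R Z, ∀ t ∈ LamA R Z A hZA, l * t * l⁻¹ ∈ LamA R Z A hZA := by
  rintro l ⟨σ, hl⟩ t ⟨s, ht, hs⟩
  refine ⟨σ.symm.trans (s.trans σ), StB_mul (StB_mul hl ht) (StB_inv hl), fun x y hxy => ?_⟩
  obtain ⟨x₁, hx₁⟩ := QuotientGroup.mk_surjective (σ.symm (x : G ⧸ Z))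
  obtain ⟨x₂, hx₂⟩ := QuotientGroup.mk_surjective (s (x₁ : G ⧸ Z))
  have h1 := hs x₁ x₂ hx₂.symm
  have e1 : σ (x₁ : G ⧸ Z) = (x : G ⧸ Z) := by rw [hx₁, σ.apply_symm_apply]
  have e2 : σ (x₂ : G ⧸ Z) = (y : G ⧸ Z) := by
    rw [hx₂, hx₁]
    exact hxy
  refine hc σ (x₁⁻¹ * x₂) (x⁻¹ * y) ?_ h1
  rw [QuotientGroup.mk_mul, QuotientGroup.mk_inv, map_mul, map_inv, e1, e2,
    QuotientGroup.mk_mul, QuotientGroup.mk_inv]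

/-- Conjugation by an element of `G` is a lift.

PROOF. Of `MulAut.conj (g : G ⧸ Z)`; `MulAut.conjNormal_apply`. -/
theorem conj_mem_lam {R Z : Subgroup G} [Z.Normal] [R.Normal] (g : G) :
    (MulAut.conjNormal g : MulAut R) ∈ Lam R Z := by
  refine ⟨MulAut.conj (g : G ⧸ Z), fun r => ?_⟩
  rw [MulAut.conj_apply, MulAut.conjNormal_apply]
  rfl

/-- Lifts preserve `N`.

PROOF. `r ∈ N` implies `(r : G ⧸ Z) = 1`, so `t r ∈ Z ⊓ R ≤ N`. -/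
theorem lam_N {R N Z : Subgroup G} [Z.Normal] (hNZ : N ≤ Z) (hRZ : R ⊓ Z ≤ N) :
    ∀ t ∈ Lam R Z, ∀ r ∈ N.subgroupOf R, t r ∈ N.subgroupOf R := by
  rintro t ⟨σ, h⟩ r hr
  rw [Subgroup.mem_subgroupOf] at hr ⊢
  have h1 : ((r : G) : G ⧸ Z) = 1 := (QuotientGroup.eq_one_iff _).2 (hNZ hr)
  have h2 := h r
  rw [h1, map_one] at h2
  exact hRZ ⟨(t r).2, (QuotientGroup.eq_one_iff _).1 h2⟩

end

end Mnf

end MP799fdf
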