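import Pool.Agent.Lib.MP_799fdf_al.Mnf.StA
import Pool.Agent.Lib.MP_799fdf_al.Mnf.StB
import Pool.Agent.Lib.MP_799fdf_al.Mnf.ClE
import Pool.Agent.Lib.MP_799fdf_al.Mnf.QuoC3

set_option autoImplicit false

open scoped commutatorElement

namespace MP799fdf

namespace Mnf

open Inn

/-- There is a section `B / A` above `R Z`, `A` characteristic modulo `Z`, `B / A` abelian of order divisible by `p`, and the lifts
of the automorphisms of `G / Z` that are trivial modulo `A` centralise a section of `N`, above `R ⊓ D`, of order divisible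
by `p`. -/
def SteD {G : Type} [Group G] (p : ℕ) (R N Z D : Subgroup G) [Z.Normal] : Prop :=
  ∃ A B H Y : Subgroup G, A.Normal ∧ B.Normal ∧ R ⊔ Z ≤ A ∧ A ≤ B ∧ ⁅B, B⁆ ≤ A ∧
    p ∣ A.relIndex B ∧
    (∀ (σ : (G ⧸ Z) ≃* (G ⧸ Z)) (x y : G), σ (x : G ⧸ Z) = (y : G ⧸ Z) → x ∈ A → y ∈ A) ∧
    Y ≤ H ∧ H ≤ N ∧ p ∣ Y.relIndex H ∧ R ⊓ D ≤ Y ∧
    ∀ (σ : (G ⧸ Z) ≃* (G ⧸ Z)) (t : R ≃* R), Cry.Lift σ t →
      (∀ x y : G, σ (x : G ⧸ Z) = (y : G ⧸ Z) → x⁻¹ * y ∈ A) →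
        ∀ z : R, (z : G) ∈ H → ((t z : R) : G) * (z : G)⁻¹ ∈ Y

theorem inf_steD {G : Type} [Group G] [Finite G] {R N D Z : Subgroup G} [D.Normal] [Z.Normal]
    {p : ℕ} (hp : p.Prime) (hloc : Loc R N) (hZ : ∀ g : G, g ∈ Z ↔ ∀ r ∈ R, g * r = r * g)
    (hNZ : N ≤ Z) (hDZ : D ≤ Z)
    (hRD : ∀ (σ : (G ⧸ Z) ≃* (G ⧸ Z)) (τ : R ≃* R), Cry.Lift σ τ →
      ∀ r : R, (r : G) ∈ D → ((τ r : R) : G) ∈ D)
    (hother : ∀ L M : Subgroup G, Loc L M → M.relIndex L = N.relIndex R → L = R ∨ L ≤ D)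
    (hlift : ∀ σ : (G ⧸ Z) ≃* (G ⧸ Z), ∃ τ : R ≃* R, Cry.Lift σ τ)
    (hS : SteD p R N Z D) : {F : Formation | F.IsSub (form G)}.Infinite := by
  obtain ⟨A, B, H, Y, hA, hB, hRZA, hAB, hBA, hpB, hc, hYH, hHN, hpH, hDY, hfix⟩ := hS
  have hRn := hloc.nR
  have hDn : D.Normal := inferInstance
  have hZA : Z ≤ A := le_sup_right.trans hRZA
  have hRA : R ≤ A := le_sup_left.trans hRZA
  have hRZ : R ⊓ Z ≤ N := by
    have hn : (R ⊓ Z).Normal := Subgroup.normal_inf_normal R Z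
    rcases hloc.max _ hn inf_le_left with h1 | h1
    · exact h1
    · exfalso
      have h2 : R ≤ Z := inf_eq_left.1 h1
      have h3 : ⁅R, R⁆ = ⊥ := by
        rw [Subgroup.commutator_eq_bot_iff_le_centralizer]
        intro x hx
        rw [Subgroup.mem_centralizer_iff]
        intro y hy
        exact (hZ y).1 (h2 hy) x hx
      rw [hloc.perf] at h3
      have h4 := hloc.lt
      rw [h3] at h4
      exact not_lt_bot h4
  have hcenN : N.subgroupOf R ≤ Subgroup.center R := by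
    intro x hx
    rw [Subgroup.mem_center_iff]
    intro y
    exact Subtype.ext ((hZ _).1 (hNZ (Subgroup.mem_subgroupOf.1 hx)) y y.2).symm
  have hE : Es p (LamA R Z A hZA) (D.subgroupOf R) (N.subgroupOf R) := by
    refine ⟨H.subgroupOf R, Y.subgroupOf R, ?_, ?_, ?_, ?_, ?_⟩
    · intro x hx
      exact Subgroup.mem_subgroupOf.2 (hDY ⟨x.2, Subgroup.mem_subgroupOf.1 hx⟩)
    · intro x hx
      exact Subgroup.mem_subgroupOf.2 (hYH (Subgroup.mem_subgroupOf.1 hx))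
    · intro x hx
      exact Subgroup.mem_subgroupOf.2 (hHN (Subgroup.mem_subgroupOf.1 hx))
    · rw [Subgroup.relIndex_subgroupOf (hHN.trans hloc.lt.le)]
      exact hpH
    · rintro t ⟨σ, ht, hσ⟩ x hx
      exact Subgroup.mem_subgroupOf.2 (hfix σ t ht hσ x (Subgroup.mem_subgroupOf.1 hx))
  obtain ⟨H', Y', hJ, hlt, hH'N, hLH, hLY, hT, hd⟩ := cliff2 hp (lamA_le hZA) (lamA_conj hZA hc)
    hcenN (fun t ht r hr => by
      obtain ⟨σ, hσ⟩ := ht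
      exact Subgroup.mem_subgroupOf.2 (hRD σ t hσ r (Subgroup.mem_subgroupOf.1 hr)))
    (lam_N hNZ hRZ) hE
  obtain ⟨h, hhH, hhY, hhp⟩ := exists_pt hp (hH'N.trans hcenN) hlt.le hd
  have hYn : (Y'.map R.subtype).Normal := by
    refine ⟨?_⟩
    rintro _ ⟨z, hz, rfl⟩ g
    exact ⟨MulAut.conjNormal g z, hLY _ (conj_mem_lam g) z hz, MulAut.conjNormal_apply g z⟩
  have hYR : Y'.map R.subtype ≤ R := by
    rintro _ ⟨z, -, rfl⟩
    exact z.2
  have hYN : Y'.map R.subtype ≤ N := by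
    rintro _ ⟨z, hz, rfl⟩
    exact Subgroup.mem_subgroupOf.1 (hH'N (hlt.le hz))
  have hmem : ∀ z : R, (z : G) ∈ D ⊔ Y'.map R.subtype → z ∈ Y' := by
    intro z hz
    obtain ⟨d, hd, y, hy, hdy⟩ := Subgroup.mem_sup_of_normal_left.1 hz
    obtain ⟨y', hy', rfl⟩ := Subgroup.mem_map.1 hy
    have h1 : d ∈ R := by
      have h2 : d = (z : G) * (R.subtype y')⁻¹ := by
        rw [← hdy]
        group
      rw [h2]
      exact R.mul_mem z.2 (R.inv_mem y'.2)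
    have h3 : z = ⟨d, h1⟩ * y' := Subtype.ext hdy.symm
    rw [h3]
    exact Y'.mul_mem (hJ (Subgroup.mem_subgroupOf.2 hd)) hy'
  refine inf_gen (D := D ⊔ Y'.map R.subtype) hp hloc hZ hNZ (sup_le hDZ (hYN.trans hNZ)) ?_ ?_ hlift
    ?_ hA hB hRA hZA (lt_of_le_of_ne hAB fun e => ?_) hBA hpB hc h ?_ ?_ ?_ ?_
  · rintro x ⟨hx1, hx2⟩
    exact hYN ⟨⟨x, hx1⟩, hmem ⟨x, hx1⟩ hx2, rfl⟩
  · intro L M hL hi
    rcases hother L M hL hi with h1 | h1
    · exact Or.inl h1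
    · exact Or.inr (h1.trans le_sup_left)
  · intro σ τ hτ r hr
    exact Subgroup.mem_sup_right ⟨τ r, hLY τ ⟨σ, hτ⟩ r (hmem r hr), rfl⟩
  · rw [e, Subgroup.relIndex_self] at hpB
    exact hp.one_lt.ne' (Nat.dvd_one.1 hpB)
  · exact Subgroup.mem_subgroupOf.1 (hH'N hhH)
  · exact fun h1 => hhY (hmem h h1)
  · exact Subgroup.mem_sup_right ⟨h ^ p, hhp, by simp⟩
  · intro σ τ hσ hτ
    exact Subgroup.mem_sup_right ⟨τ h * h⁻¹, hT τ ⟨σ, hτ, hσ⟩ h hhH, by simp⟩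

end Mnf

end MP799fdf
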