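import Pool.Agent.Lib.MP_799fdf_al.Mnf.Defs

/-! # Basic facts about `Setup` -/

set_option autoImplicit false

open scoped commutatorElement

namespace MP799fdf

namespace Mnf

open Inn

theorem perf_top {K : Type} [Group K] {L : Subgroup K} (h : ⁅L, L⁆ = L) :
    ⁅(⊤ : Subgroup L), (⊤ : Subgroup L)⁆ = ⊤ := by
  apply Subgroup.map_injective L.subtype_injective
  rw [Subgroup.map_commutator, ← MonoidHom.range_eq_map, L.range_subtype, h]

theorem relIndex_map_loc {K A : Type} [Group K] [Group A] (f : K →* A) {R N : Subgroup K}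
    (h : Loc R N) (hR : ¬ R ≤ f.ker) : (N.map f).relIndex (R.map f) = N.relIndex R := by
  rw [← Subgroup.relIndex_comap, Subgroup.comap_map_eq, ← Subgroup.inf_relIndex_right]
  congr 1
  have h1 := h.nN
  refine le_antisymm ?_ (le_inf le_sup_left h.lt.le)
  rintro x ⟨hx, hxR⟩
  obtain ⟨n, hn, k, hk, rfl⟩ := Subgroup.mem_sup_of_normal_left.1 hx
  refine N.mul_mem hn (loc_inf_ker h hR ⟨?_, hk⟩)
  have h2 := R.mul_mem (R.inv_mem (h.lt.le hn)) hxR
  rwa [inv_mul_cancel_left] at h2

theorem relIndex_lift {K A : Type} [Group K] [Group A] (f : K →* A) {R' : Subgroup K}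
    {R N : Subgroup A} (h : R'.map f = R) : (R' ⊓ N.comap f).relIndex R' = N.relIndex R := by
  rw [Subgroup.inf_relIndex_left, Subgroup.relIndex_comap, h]

section

variable {G : Type} [Group G] {p : ℕ} {R H Z A B : Subgroup G} [Z.Normal] {M : Type} [AddCommGroup M] {θ : M → R} {m₀ : M}

/-- An element that centralises `R / H` is in `Z`. -/
theorem Setup.cen_quot (S : Setup G p R H Z A B θ m₀) (g : G) (hg : ∀ r ∈ R, ⁅g, r⁆ ∈ H) : g ∈ Z := by
  have hR := S.loc.nR
  let T : Subgroup G :=
    { carrier := {r | r ∈ R ∧ g * r * g⁻¹ = r}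
      one_mem' := ⟨R.one_mem, by group⟩
      mul_mem' := by
        rintro x y ⟨hx, hx'⟩ ⟨hy, hy'⟩
        refine ⟨R.mul_mem hx hy, ?_⟩
        have h1 : g * (x * y) * g⁻¹ = (g * x * g⁻¹) * (g * y * g⁻¹) := by group
        rw [h1, hx', hy']
      inv_mem' := by
        rintro x ⟨hx, hx'⟩
        refine ⟨R.inv_mem hx, ?_⟩
        have h1 : g * x⁻¹ * g⁻¹ = (g * x * g⁻¹)⁻¹ := by group
        rw [h1, hx'] }
  have hT : R ≤ T := by
    rw [← S.loc.perf, Subgroup.commutator_le]
    intro r hr s hs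
    have hz1 := (S.cen _).1 (S.HZ (hg r hr))
    have hz2 := (S.cen _).1 (S.HZ (hg s hs))
    refine ⟨?_, ?_⟩
    · have h1 := Subgroup.commutator_mem_commutator hr hs
      rwa [S.loc.perf] at h1
    · have e1 : g * r * g⁻¹ = ⁅g, r⁆ * r := by
        rw [commutatorElement_def]
        group
      have e2 : g * s * g⁻¹ = ⁅g, s⁆ * s := by
        rw [commutatorElement_def]
        group
      have e3 : g * ⁅r, s⁆ * g⁻¹ = ⁅g * r * g⁻¹, g * s * g⁻¹⁆ := by
        simp only [commutatorElement_def]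
        group
      have hgs : ⁅g, s⁆ ∈ R := S.loc.lt.le (hg s hs)
      have hgr : ⁅g, r⁆ ∈ R := S.loc.lt.le (hg r hr)
      rw [e3, e1, e2]
      generalize ⁅g, r⁆ = u at *
      generalize ⁅g, s⁆ = v at *
      have a1 := hz1 r hr
      have a2 := hz1 s hs
      have a3 := hz1 v hgs
      have a4 := hz2 s hs
      have a5 := hz2 r hr
      -- `u` and `v` are central in `R`
      have b1 : ⁅u * r, v * s⁆ = u * r * v * s * r⁻¹ * u⁻¹ * s⁻¹ * v⁻¹ := by
        rw [commutatorElement_def]
        group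
      have a6 : u * (r⁻¹ : G) = r⁻¹ * u := hz1 _ (R.inv_mem hr)
      have a7 : v * (r⁻¹ : G) = r⁻¹ * v := hz2 _ (R.inv_mem hr)
      have c1 : Commute u (r * v * s * r⁻¹) := by
        have d1 : Commute u r := a1
        have d2 : Commute u v := a3
        have d3 : Commute u s := a2
        exact ((d1.mul_right d2).mul_right d3).mul_right d1.inv_right
      have c2 : Commute v (s * r⁻¹ * s⁻¹) := by
        have d1 : Commute v r := a5
        have d3 : Commute v s := a4
        exact (d3.mul_right d1.inv_right).mul_right d3.inv_right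
      calc ⁅u * r, v * s⁆ = u * (r * v * s * r⁻¹) * u⁻¹ * s⁻¹ * v⁻¹ := by
            rw [b1]
            group
        _ = r * (v * (s * r⁻¹ * s⁻¹)) * v⁻¹ := by
            rw [c1.eq]
            group
        _ = ⁅r, s⁆ := by
            rw [c2.eq, commutatorElement_def]
            group
  rw [S.cen]
  intro r hr
  have h1 := (hT hr).2
  exact mul_inv_eq_iff_eq_mul.1 h1

/-- Two homomorphisms from a perfect group to `R` that agree modulo `Z` are equal. -/
theorem Setup.perf_hom (S : Setup G p R H Z A B θ m₀) {L : Type} [Group L]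
    (hL : ⁅(⊤ : Subgroup L), (⊤ : Subgroup L)⁆ = ⊤) (α β : L →* R)
    (hαβ : ∀ l, ((α l : G) : G ⧸ Z) = ((β l : G) : G ⧸ Z)) : α = β := by
  have hz : ∀ l, ∀ r ∈ R, ((β l : G)⁻¹ * (α l : G)) * r = r * ((β l : G)⁻¹ * (α l : G)) := by
    intro l
    exact (S.cen _).1 (QuotientGroup.eq.1 (hαβ l).symm)
  have key : (⊤ : Subgroup L) ≤ α.eqLocus β := by
    rw [← hL, Subgroup.commutator_le]
    intro x _ y _
    show α ⁅x, y⁆ = β ⁅x, y⁆
    apply Subtype.ext
    rw [map_commutatorElement, map_commutatorElement]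
    have hx := hz x
    have hy := hz y
    obtain ⟨u, hu⟩ : ∃ u : G, (β x : G)⁻¹ * (α x : G) = u := ⟨_, rfl⟩
    obtain ⟨v, hv⟩ : ∃ v : G, (β y : G)⁻¹ * (α y : G) = v := ⟨_, rfl⟩
    have ex : (α x : G) = β x * u := by rw [← hu]; group
    have ey : (α y : G) = β y * v := by rw [← hv]; group
    rw [hu] at hx
    rw [hv] at hy
    have hvR : v ∈ R := by
      rw [← hv]
      exact R.mul_mem (R.inv_mem (β y).2) (α y).2
    have d1 : Commute u (β x : G) := hx _ (β x).2
    have d2 : Commute u (β y : G) := hx _ (β y).2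
    have d3 : Commute u v := hx _ hvR
    have d4 : Commute v (β x : G) := hy _ (β x).2
    have d5 : Commute v (β y : G) := hy _ (β y).2
    have e1 : ((⁅α x, α y⁆ : R) : G) = ⁅(α x : G), (α y : G)⁆ := rfl
    have e2 : ((⁅β x, β y⁆ : R) : G) = ⁅(β x : G), (β y : G)⁆ := rfl
    rw [e1, e2, ex, ey]
    generalize (β x : G) = a at *
    generalize (β y : G) = b at *
    have c2 : Commute v a⁻¹ := Commute.inv_right d4
    calc ⁅a * u, b * v⁆ = a * (u * (b * v)) * u⁻¹ * a⁻¹ * v⁻¹ * b⁻¹ := by
          rw [commutatorElement_def]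
          group
      _ = a * b * (v * a⁻¹) * v⁻¹ * b⁻¹ := by
          rw [(d2.mul_right d3).eq]
          group
      _ = ⁅a, b⁆ := by
          rw [c2.eq, commutatorElement_def]
          group
  ext l
  exact congrArg Subtype.val (key (Subgroup.mem_top l))

end

end Mnf

end MP799fdf
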