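import Pool.Agent.Lib.MP_799fdf_al.Mnf.BasA

/-! # Basic facts about `Setup`, part 2 -/

set_option autoImplicit false

open scoped commutatorElement

namespace MP799fdf

namespace Mnf

open Inn

section

variable {G : Type} [Group G] {p : ℕ} {R H Z A B : Subgroup G} [Z.Normal] {M : Type} [AddCommGroup M] {θ : M → R} {m₀ : M}

/-- An inner automorphism lifts to conjugation: if `τ` lifts `MulAut.conj (g : G ⧸ Z)` then `τ r = g r g⁻¹`.

PROOF. `r ↦ g * r * g⁻¹` (`MulAut.conjNormal g : R ≃* R`) and `τ` agree modulo `H`, so they are equal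
(`perf_hom`, `perf_top`). -/
theorem Setup.lift_conj (S : Setup G p R H Z A B θ m₀) (g : G) (τ : R ≃* R)
    (hτ : ∀ r : R, (((τ r : R) : G) : G ⧸ Z) = MulAut.conj (g : G ⧸ Z) ((r : G) : G ⧸ Z)) (r : R) :
    ((τ r : R) : G) = g * r * g⁻¹ := by
  have := S.loc.nR
  have h1 : τ.toMonoidHom = (MulAut.conjNormal g : R ≃* R).toMonoidHom := by
    refine S.perf_hom (perf_top S.loc.perf) _ _ fun l => ?_
    have h2 : (((MulAut.conjNormal g : R ≃* R) l : R) : G) = g * l * g⁻¹ :=
      MulAut.conjNormal_apply g l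
    change (((τ l : R) : G) : G ⧸ Z) = ((((MulAut.conjNormal g : R ≃* R) l : R) : G) : G ⧸ Z)
    rw [hτ, h2]
    rfl
  have h3 : τ r = (MulAut.conjNormal g : R ≃* R) r := DFunLike.congr_fun h1 r
  rw [h3]
  exact MulAut.conjNormal_apply g r

/-- PROOF. `S.nt1` for `MulAut.conj (g : G ⧸ Z)` and `lift_conj`. -/
theorem Setup.conj_θ (S : Setup G p R H Z A B θ m₀) (g : G) :
    ∃ κ : M → M, (∀ a b, κ (a + b) = κ a + κ b) ∧
      ∀ a, ((θ (κ a) : R) : G) = g * ((θ a : R) : G) * g⁻¹ := by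
  obtain ⟨τ, h1, h2⟩ := S.nt1 (MulAut.conj (g : G ⧸ Z))
  choose κ hκ using h2
  refine ⟨κ, fun a b => ?_, fun a => ?_⟩
  · apply S.inj
    rw [← hκ, S.add, map_mul, hκ, hκ, S.add]
  · rw [← hκ]
    exact S.lift_conj g τ h1 (θ a)

/-- The image of `R` is the only local subgroup of `G / Z` with a chief factor of order `|R / H|`. -/
theorem Setup.only [Finite G] (S : Setup G p R H Z A B θ m₀) {L N : Subgroup (G ⧸ Z)} (hL : Loc L N)
    (hi : N.relIndex L = H.relIndex R) : L = R.map (QuotientGroup.mk' Z) := by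
  obtain ⟨R', N', hL', hm, hN⟩ := loc_lift (QuotientGroup.mk' Z) (QuotientGroup.mk'_surjective Z) hL
  have h1 : N'.relIndex R' = H.relIndex R := by
    rw [hN, relIndex_lift _ hm, hi]
  rw [← hm, S.uniq R' N' hL' h1]

end

end Mnf

end MP799fdf
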