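import Pool.Agent.Lib.MP_799fdf_al.Mnf.Es

set_option autoImplicit false

open scoped commutatorElement

namespace MP799fdf

namespace Mnf

open Inn

/-- PROOF. Let `H, Y` be the section. `(H ⊓ K₁) / (Y ⊓ K₁)` and `(H ⊔ K₁) / (Y ⊔ K₁)` are centralised by `T` (all subgroups of `K` are
central, so commute; `t (h * k) * (h * k)⁻¹ = (t h * h⁻¹) * (t k * k⁻¹)`), and
`Y.relIndex H = (Y ⊓ K₁).relIndex (H ⊓ K₁) * (Y ⊔ K₁).relIndex (H ⊔ K₁)` (e.g. with the homomorphism `H → X ⧸ K₁`, or by cardinalities of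
`H ⊓ K₁`, `H ⊔ K₁`: `|H| |K₁| = |H ⊔ K₁| |H ⊓ K₁|`), so `p` divides one of the factors. -/
theorem es_split {X : Type} [Group X] [Finite X] {p : ℕ} (hp : p.Prime) {T : Subgroup (MulAut X)}
    {K₀ K₁ K : Subgroup X} (hK : K ≤ Subgroup.center X) (h01 : K₀ ≤ K₁) (h1 : K₁ ≤ K)
    (hT : ∀ t ∈ T, ∀ x ∈ K₁, t x ∈ K₁) (hE : Es p T K₀ K) : Es p T K₀ K₁ ∨ Es p T K₁ K := by
  obtain ⟨H, Y, hKY, hYH, hHK, hdvd, hc⟩ := hE
  have norm_of : ∀ S : Subgroup X, S ≤ Subgroup.center X → S.Normal := fun S hS =>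
    ⟨fun n hn g => by
      have hc := Subgroup.mem_center_iff.1 (hS hn) g
      rw [hc, mul_assoc, mul_inv_cancel, mul_one]; exact hn⟩
  have hYn : Y.Normal := norm_of Y ((hYH.trans hHK).trans hK)
  have hK1n : K₁.Normal := norm_of K₁ (h1.trans hK)
  have hYKn : (Y ⊔ K₁).Normal := norm_of _ (sup_le ((hYH.trans hHK).trans hK) (h1.trans hK))
  -- the modular law
  have hmod : Y ⊔ (H ⊓ K₁) = (Y ⊔ K₁) ⊓ H := by
    apply le_antisymm
    · exact sup_le (le_inf le_sup_left hYH) (le_inf (inf_le_right.trans le_sup_right) inf_le_left)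
    · rintro x ⟨hx1, hx2⟩
      obtain ⟨y, hy, z, hz, rfl⟩ := Subgroup.mem_sup_of_normal_right.1 hx1
      refine Subgroup.mul_mem_sup hy ⟨?_, hz⟩
      have := H.mul_mem (H.inv_mem (hYH hy)) hx2
      rwa [inv_mul_cancel_left] at this
  have e1 : Y.relIndex H = (Y ⊓ K₁).relIndex (H ⊓ K₁) * (Y ⊔ K₁).relIndex (H ⊔ K₁) := by
    have hA : Y.relIndex (Y ⊔ (H ⊓ K₁)) = (Y ⊓ K₁).relIndex (H ⊓ K₁) := by
      rw [Subgroup.relIndex_sup_left, ← Subgroup.inf_relIndex_right Y (H ⊓ K₁)]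
      congr 1
      rw [← inf_assoc, inf_eq_left.2 hYH]
    have hB : (Y ⊔ (H ⊓ K₁)).relIndex H = (Y ⊔ K₁).relIndex (H ⊔ K₁) := by
      rw [hmod, Subgroup.inf_relIndex_right, ← Subgroup.relIndex_sup_right H (Y ⊔ K₁)]
      congr 1
      rw [← sup_assoc, sup_eq_left.2 hYH]
    rw [← hA, ← hB]
    exact (Subgroup.relIndex_mul_relIndex _ _ _ le_sup_left (by rw [hmod]; exact inf_le_right)).symm
  rw [e1] at hdvd
  rcases (Nat.Prime.dvd_mul hp).1 hdvd with h | h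
  · left
    refine ⟨H ⊓ K₁, Y ⊓ K₁, le_inf hKY h01, inf_le_inf_right _ hYH, inf_le_right, h, ?_⟩
    rintro t ht x ⟨hx1, hx2⟩
    exact ⟨hc t ht x hx1, K₁.mul_mem (hT t ht x hx2) (K₁.inv_mem hx2)⟩
  · right
    refine ⟨H ⊔ K₁, Y ⊔ K₁, le_sup_right, sup_le_sup_right hYH _, sup_le hHK h1, h, ?_⟩
    intro t ht x hx
    obtain ⟨a, ha, b, hb, rfl⟩ := Subgroup.mem_sup_of_normal_right.1 hx
    have hbc : ∀ g : X, g * b = b * g := fun g =>
      Subgroup.mem_center_iff.1 ((h1.trans hK) hb) g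
    have hbc' : ∀ g : X, g * t b = t b * g := fun g =>
      Subgroup.mem_center_iff.1 ((h1.trans hK) (hT t ht b hb)) g
    have : t (a * b) * (a * b)⁻¹ = (t a * a⁻¹) * (t b * b⁻¹) := by
      rw [map_mul, mul_inv_rev]
      calc t a * t b * (b⁻¹ * a⁻¹) = t a * (t b * b⁻¹ * a⁻¹) := by group
        _ = t a * (a⁻¹ * (t b * b⁻¹)) := by
          congr 1
          have hz : t b * b⁻¹ ∈ Subgroup.center X :=
            (h1.trans hK) (K₁.mul_mem (hT t ht b hb) (K₁.inv_mem hb))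
          exact (Subgroup.mem_center_iff.1 hz a⁻¹).symm
        _ = (t a * a⁻¹) * (t b * b⁻¹) := by group
    rw [this]
    exact Subgroup.mul_mem_sup (hc t ht a ha) (K₁.mul_mem (hT t ht b hb) (K₁.inv_mem hb))

end Mnf

end MP799fdf
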