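import Pool.Agent.Lib.MP_799fdf_al.Mnf.ClA

set_option autoImplicit false

open scoped commutatorElement

namespace MP799fdf

namespace Mnf

open Inn

/-- PROOF. Suppose `Es p T K₀ (S ⊔ W)`. By `es_split` with `K₁ = S` (and `hn`) `Es p T S (S ⊔ W)`, with `H, Y`; `Y ≠ H` as `p` divides
the index. `S ⊓ W`, `H ⊓ W`, `Y ⊓ W` are `T`-invariant (`t x ∈ Y * x` for `x ∈ H`) and between `K₀` and `W`, so each of them is `K₀` or `W`
(`hmin`). `H = S ⊔ (H ⊓ W)`, `Y = S ⊔ (Y ⊓ W)` (modular law), so `H ⊓ W ≠ Y ⊓ W`, so `H ⊓ W = W`, `Y ⊓ W = K₀`. But `t w * w⁻¹ ∈ Y ⊓ W`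
for `w ∈ W`, `t ∈ T`, against `hne`. -/
theorem es_step {X : Type} [Group X] [Finite X] {p : ℕ} (hp : p.Prime) {T : Subgroup (MulAut X)}
    {K₀ S W : Subgroup X} (hS : S ≤ Subgroup.center X) (hW : W ≤ Subgroup.center X)
    (h0S : K₀ ≤ S) (h0W : K₀ ≤ W) (hTS : ∀ t ∈ T, ∀ x ∈ S, t x ∈ S)
    (hTW : ∀ t ∈ T, ∀ x ∈ W, t x ∈ W)
    (hmin : ∀ U : Subgroup X, K₀ ≤ U → U ≤ W → (∀ t ∈ T, ∀ x ∈ U, t x ∈ U) → U = K₀ ∨ U = W)
    (hne : ∃ t ∈ T, ∃ x ∈ W, t x * x⁻¹ ∉ K₀) (hn : ¬ Es p T K₀ S) : ¬ Es p T K₀ (S ⊔ W) := by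
  intro hE
  rcases es_split hp (sup_le hS hW) h0S le_sup_left hTS hE with h1 | h1
  · exact hn h1
  obtain ⟨H, Y, hSY, hYH, hHK, hdvd, hcen⟩ := h1
  have hnle : ¬ H ≤ Y := by
    intro h
    have h2 : Y = H := le_antisymm hYH h
    rw [h2, Subgroup.relIndex_self] at hdvd
    exact hp.one_lt.ne' (Nat.dvd_one.1 hdvd)
  have hWn : W.Normal := ⟨fun n hn g => by
    have h2 := Subgroup.mem_center_iff.1 (hW hn) g
    rw [h2, mul_assoc, mul_inv_cancel, mul_one]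
    exact hn⟩
  have hinvY : ∀ t ∈ T, ∀ x ∈ Y ⊓ W, t x ∈ Y ⊓ W := by
    intro t ht x hx
    obtain ⟨hxY, hxW⟩ := Subgroup.mem_inf.1 hx
    refine Subgroup.mem_inf.2 ⟨?_, hTW t ht x hxW⟩
    have h2 := Y.mul_mem (hcen t ht x (hYH hxY)) hxY
    rwa [inv_mul_cancel_right] at h2
  have hinvH : ∀ t ∈ T, ∀ x ∈ H ⊓ W, t x ∈ H ⊓ W := by
    intro t ht x hx
    obtain ⟨hxH, hxW⟩ := Subgroup.mem_inf.1 hx
    refine Subgroup.mem_inf.2 ⟨?_, hTW t ht x hxW⟩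
    have h2 := H.mul_mem (hYH (hcen t ht x hxH)) hxH
    rwa [inv_mul_cancel_right] at h2
  have h0Y : K₀ ≤ Y := h0S.trans hSY
  rcases hmin (Y ⊓ W) (le_inf h0Y h0W) inf_le_right hinvY with hY | hY
  · rcases hmin (H ⊓ W) (le_inf (h0Y.trans hYH) h0W) inf_le_right hinvH with hH | hH
    · apply hnle
      intro x hx
      obtain ⟨s, hs, w, hw, rfl⟩ := Subgroup.mem_sup_of_normal_right.1 (hHK hx)
      have h2 : s⁻¹ * (s * w) ∈ H := H.mul_mem (H.inv_mem (hYH (hSY hs))) hx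
      rw [inv_mul_cancel_left] at h2
      have h3 : w ∈ H ⊓ W := Subgroup.mem_inf.2 ⟨h2, hw⟩
      rw [hH] at h3
      exact Y.mul_mem (hSY hs) (h0Y h3)
    · obtain ⟨t, ht, x, hx, hxt⟩ := hne
      apply hxt
      rw [← hY]
      have h2 : x ∈ H := by
        have h3 : x ∈ H ⊓ W := by
          rw [hH]
          exact hx
        exact (Subgroup.mem_inf.1 h3).1
      exact Subgroup.mem_inf.2 ⟨hcen t ht x h2, W.mul_mem (hTW t ht x hx) (W.inv_mem hx)⟩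
  · apply hnle
    refine hHK.trans (sup_le hSY ?_)
    rw [← hY]
    exact inf_le_left

end Mnf

end MP799fdf
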