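import Pool.Agent.Lib.MP_799fdf_al.Mnf.ClB

set_option autoImplicit false

open scoped commutatorElement

namespace MP799fdf

namespace Mnf

open Inn

private theorem clcSupInv {X : Type} [Group X] (t : MulAut X) (S W : Subgroup X)
    (hS : ∀ x ∈ S, t x ∈ S) (hW : ∀ x ∈ W, t x ∈ W) : ∀ x ∈ S ⊔ W, t x ∈ S ⊔ W := by
  intro x hx
  have h1 : (S ⊔ W).map (MulEquiv.toMonoidHom t) ≤ S ⊔ W := by
    rw [Subgroup.map_sup]
    refine sup_le ?_ ?_
    · refine le_trans ?_ le_sup_left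
      rintro _ ⟨y, hy, rfl⟩
      exact hS y hy
    · refine le_trans ?_ le_sup_right
      rintro _ ⟨y, hy, rfl⟩
      exact hW y hy
  exact h1 ⟨x, hx, rfl⟩

/-- The irreducible case (Clifford's theorem).

PROOF. Suppose not. Let `W` be minimal among the subgroups with `K₀ < W ≤ K` that are `T`-invariant (`K` is one of them). The
subgroups `W.map l` for `l ∈ L` (`l : MulAut X` as a homomorphism, `(l : X ≃* X).toMonoidHom`) contain `K₀`, are contained in `K`, are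
`T`-invariant (`t * l = l * (l⁻¹ * t * l)`), and minimal in the same sense. Their supremum is `L`-invariant and `> K₀`, so it is `K`
(`hirr`). `T` is not trivial on `W / K₀`, otherwise it would be trivial on all `W.map l / K₀` and so on `K / K₀`. By induction on the
finite set `F` of elements of `L` (`Finset.induction_on`, `es_step`), `¬ Es p T K₀ (K₀ ⊔ ⨆ l ∈ F, W.map l)`; for `F = ∅`:
`¬ Es p T K₀ K₀` since `p` does not divide `1`. For `F = L` (finite) this contradicts `hE`. -/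
theorem es_irr {X : Type} [Group X] [Finite X] {p : ℕ} (hp : p.Prime) {L T : Subgroup (MulAut X)}
    (hTL : T ≤ L) (hTn : ∀ l ∈ L, ∀ t ∈ T, l * t * l⁻¹ ∈ T)
    {K₀ K : Subgroup X} (hK : K ≤ Subgroup.center X) (hlt : K₀ < K)
    (hLK₀ : ∀ l ∈ L, ∀ x ∈ K₀, l x ∈ K₀) (hLK : ∀ l ∈ L, ∀ x ∈ K, l x ∈ K)
    (hirr : ∀ U : Subgroup X, K₀ ≤ U → U ≤ K → (∀ l ∈ L, ∀ x ∈ U, l x ∈ U) → U = K₀ ∨ U = K)
    (hE : Es p T K₀ K) : ∀ t ∈ T, ∀ x ∈ K, t x * x⁻¹ ∈ K₀ := by
  by_contra hcon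
  have h0K : K₀ ≤ K := hlt.le
  -- the minimal subgroup
  obtain ⟨W, hWm⟩ := (Set.toFinite {W : Subgroup X | K₀ < W ∧ W ≤ K ∧
    ∀ t ∈ T, ∀ x ∈ W, t x ∈ W}).exists_minimal ⟨K, hlt, le_refl K, fun t ht => hLK t (hTL ht)⟩
  obtain ⟨⟨hW0, hWK, hWT⟩, hWmin⟩ := hWm
  have hmin : ∀ U : Subgroup X, K₀ ≤ U → U ≤ W → (∀ t ∈ T, ∀ x ∈ U, t x ∈ U) →
      U = K₀ ∨ U = W := by
    intro U h1 h2 h3
    by_cases h4 : U = K₀
    · exact Or.inl h4
    · right
      have h5 : K₀ < U := lt_of_le_of_ne h1 (Ne.symm h4)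
      exact le_antisymm h2 (hWmin ⟨h5, le_trans h2 hWK, h3⟩ h2)
  -- `T` is not trivial on `W / K₀`
  have hcl : ∀ l ∈ L, ∀ t ∈ T, l⁻¹ * t * l ∈ T := by
    intro l hl t ht
    have h1 := hTn l⁻¹ (L.inv_mem hl) t ht
    rwa [inv_inv] at h1
  have hne : ∃ t ∈ T, ∃ x ∈ W, t x * x⁻¹ ∉ K₀ := by
    by_contra hno
    push Not at hno
    let D : Subgroup X :=
      { carrier := {x | x ∈ K ∧ ∀ t ∈ T, t x * x⁻¹ ∈ K₀}
        one_mem' := ⟨K.one_mem, fun t _ => by simp [K₀.one_mem]⟩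
        mul_mem' := by
          rintro a b ⟨ha, ha'⟩ ⟨hb, hb'⟩
          refine ⟨K.mul_mem ha hb, fun t ht => ?_⟩
          have h1 := Subgroup.mem_center_iff.1 (hK (h0K (hb' t ht))) (t a)
          have h2 : t (a * b) * (a * b)⁻¹ = (t b * b⁻¹) * (t a * a⁻¹) := by
            calc t (a * b) * (a * b)⁻¹ = (t a * (t b * b⁻¹)) * a⁻¹ := by
                  rw [map_mul, mul_inv_rev]; group
              _ = ((t b * b⁻¹) * t a) * a⁻¹ := by rw [h1]
              _ = (t b * b⁻¹) * (t a * a⁻¹) := by group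
          rw [h2]
          exact K₀.mul_mem (hb' t ht) (ha' t ht)
        inv_mem' := by
          rintro a ⟨ha, ha'⟩
          refine ⟨K.inv_mem ha, fun t ht => ?_⟩
          have h0 : a⁻¹ ∈ Subgroup.center X := hK (K.inv_mem ha)
          have h1 := Subgroup.mem_center_iff.1 h0 (t a⁻¹)
          have h2 : t a⁻¹ * a⁻¹⁻¹ = (t a * a⁻¹)⁻¹ := by
            have h3 := Subgroup.mem_center_iff.1 (hK ha) (t a⁻¹)
            rw [inv_inv, h3, mul_inv_rev, inv_inv, map_inv]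
          rw [h2]
          exact K₀.inv_mem (ha' t ht) }
    have hD1 : K₀ ≤ D := fun x hx => ⟨h0K hx, fun t ht =>
      K₀.mul_mem (hLK₀ t (hTL ht) x hx) (K₀.inv_mem hx)⟩
    have hD2 : D ≤ K := fun x hx => hx.1
    have hD3 : ∀ l ∈ L, ∀ x ∈ D, l x ∈ D := by
      intro l hl x hx
      refine ⟨hLK l hl x hx.1, fun t ht => ?_⟩
      have h1 := hLK₀ l hl _ (hx.2 _ (hcl l hl t ht))
      have h2 : l ((l⁻¹ * t * l) x * x⁻¹) = t (l x) * (l x)⁻¹ := by
        rw [map_mul, map_inv]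
        congr 1
        rw [← MulAut.mul_apply, ← MulAut.mul_apply]
        congr 1
        group
      rwa [h2] at h1
    have hWD : W ≤ D := fun x hx => ⟨hWK hx, fun t ht => hno t ht x hx⟩
    rcases hirr D hD1 hD2 hD3 with h1 | h1
    · exact absurd (lt_of_lt_of_le hW0 hWD) (by rw [h1]; exact lt_irrefl _)
    · apply hcon
      intro t ht x hx
      have h2 : x ∈ D := by rw [h1]; exact hx
      exact h2.2 t ht
  -- a maximal subgroup without the section
  have hE0 : ¬ Es p T K₀ K₀ := by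
    rintro ⟨H, Y, h1, h2, h3, h4, -⟩
    have h5 : Y = H := le_antisymm h2 (le_trans h3 h1)
    rw [h5, Subgroup.relIndex_self] at h4
    exact hp.one_lt.ne' (Nat.dvd_one.1 h4)
  obtain ⟨S, hSm⟩ := (Set.toFinite {S : Subgroup X | K₀ ≤ S ∧ S ≤ K ∧
    (∀ t ∈ T, ∀ x ∈ S, t x ∈ S) ∧ ¬ Es p T K₀ S}).exists_maximal
      ⟨K₀, le_refl _, h0K, fun t ht => hLK₀ t (hTL ht), hE0⟩
  obtain ⟨⟨hS0, hSK, hST, hSE⟩, hSmax⟩ := hSm
  have hall : ∀ l ∈ L, ∀ x ∈ W, l x ∈ S := by
    intro l hl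
    have e1 : ∀ x, l (l⁻¹ x) = x := fun x => by
      rw [← MulAut.mul_apply, mul_inv_cancel, MulAut.one_apply]
    have e2 : ∀ x, l⁻¹ (l x) = x := fun x => by
      rw [← MulAut.mul_apply, inv_mul_cancel, MulAut.one_apply]
    let V : Subgroup X := W.comap (MulEquiv.toMonoidHom l⁻¹)
    have hV : ∀ x, x ∈ V ↔ l⁻¹ x ∈ W := fun x => Iff.rfl
    have h0V : K₀ ≤ V := fun x hx => (hV x).2 (hW0.le (hLK₀ _ (L.inv_mem hl) x hx))
    have hVK : V ≤ K := fun x hx => by
      have := hLK l hl _ (hWK ((hV x).1 hx))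
      rwa [e1] at this
    have hTV : ∀ t ∈ T, ∀ x ∈ V, t x ∈ V := by
      intro t ht x hx
      rw [hV] at hx ⊢
      have h1 := hWT _ (hcl l hl t ht) _ hx
      have h2 : (l⁻¹ * t * l) (l⁻¹ x) = l⁻¹ (t x) := by
        rw [MulAut.mul_apply, MulAut.mul_apply, e1]
      rwa [h2] at h1
    have hminV : ∀ U : Subgroup X, K₀ ≤ U → U ≤ V → (∀ t ∈ T, ∀ x ∈ U, t x ∈ U) →
        U = K₀ ∨ U = V := by
      intro U h1 h2 h3
      let U' : Subgroup X := U.comap (MulEquiv.toMonoidHom l)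
      have hU' : ∀ x, x ∈ U' ↔ l x ∈ U := fun x => Iff.rfl
      have g1 : K₀ ≤ U' := fun x hx => (hU' x).2 (h1 (hLK₀ l hl x hx))
      have g2 : U' ≤ W := fun x hx => by
        have := (hV _).1 (h2 ((hU' x).1 hx))
        rwa [e2] at this
      have g3 : ∀ t ∈ T, ∀ x ∈ U', t x ∈ U' := by
        intro t ht x hx
        rw [hU'] at hx ⊢
        have k1 := h3 _ (hTn l hl t ht) _ hx
        have k2 : (l * t * l⁻¹) (l x) = l (t x) := by
          rw [MulAut.mul_apply, MulAut.mul_apply, e2]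
        rwa [k2] at k1
      rcases hmin U' g1 g2 g3 with g4 | g4
      · left
        refine le_antisymm (fun x hx => ?_) h1
        have k1 : l⁻¹ x ∈ U' := by rw [hU', e1]; exact hx
        rw [g4] at k1
        have k2 := hLK₀ l hl _ k1
        rwa [e1] at k2
      · right
        refine le_antisymm h2 (fun x hx => ?_)
        have k1 : l⁻¹ x ∈ U' := by rw [g4]; exact (hV x).1 hx
        rw [hU', e1] at k1
        exact k1
    have hneV : ∃ t ∈ T, ∃ x ∈ V, t x * x⁻¹ ∉ K₀ := by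
      obtain ⟨t, ht, x, hx, hn⟩ := hne
      refine ⟨l * t * l⁻¹, hTn l hl t ht, l x, (hV _).2 (by rw [e2]; exact hx), fun hmem => hn ?_⟩
      have k1 : (l * t * l⁻¹) (l x) * (l x)⁻¹ = l (t x * x⁻¹) := by
        rw [MulAut.mul_apply, MulAut.mul_apply, e2, map_mul, map_inv]
      rw [k1] at hmem
      have k2 := hLK₀ _ (L.inv_mem hl) _ hmem
      rwa [e2] at k2
    have hstep := es_step hp (le_trans hSK hK) (le_trans hVK hK) hS0 h0V hST hTV hminV hneV hSE
    have hle : S ⊔ V ≤ S := hSmax ⟨le_trans hS0 le_sup_left, sup_le hSK hVK,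
      fun t ht => clcSupInv t S V (hST t ht) (hTV t ht), hstep⟩ le_sup_left
    intro x hx
    exact hle ((le_sup_right : V ≤ S ⊔ V) ((hV _).2 (by rw [e2]; exact hx)))
  let U : Subgroup X :=
    { carrier := {x | ∀ l ∈ L, l x ∈ S}
      one_mem' := fun l _ => by rw [map_one]; exact S.one_mem
      mul_mem' := fun {a b} ha hb l hl => by rw [map_mul]; exact S.mul_mem (ha l hl) (hb l hl)
      inv_mem' := fun {a} ha l hl => by rw [map_inv]; exact S.inv_mem (ha l hl) }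
  have hUS : U ≤ S := fun x hx => by
    have := hx 1 L.one_mem
    rwa [MulAut.one_apply] at this
  have hU0 : K₀ ≤ U := fun x hx l hl => hS0 (hLK₀ l hl x hx)
  have hUL : ∀ l ∈ L, ∀ x ∈ U, l x ∈ U := by
    intro l hl x hx m hm
    have := hx (m * l) (L.mul_mem hm hl)
    rwa [MulAut.mul_apply] at this
  have hWU : W ≤ U := fun x hx l hl => hall l hl x hx
  rcases hirr U hU0 (le_trans hUS hSK) hUL with h1 | h1
  · exact absurd (lt_of_lt_of_le hW0 hWU) (by rw [h1]; exact lt_irrefl _)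
  · have h2 : S = K := le_antisymm hSK (by rw [← h1]; exact hUS)
    rw [h2] at hSE
    exact hSE hE

end Mnf

end MP799fdf
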