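import Pool.Agent.Lib.MP_799fdf_al.Mnf.ClC

set_option autoImplicit false

open scoped commutatorElement

namespace MP799fdf

namespace Mnf

open Inn

private theorem cliff_dvd {X : Type} [Group X] {p : ℕ} {T : Subgroup (MulAut X)}
    {K₀ K : Subgroup X} (hE : Es p T K₀ K) : p ∣ K₀.relIndex K := by
  obtain ⟨H, Y, h1, h2, h3, h4, -⟩ := hE
  have h5 : K₀.relIndex Y * Y.relIndex H = K₀.relIndex H := Subgroup.relIndex_mul_relIndex _ _ _ h1 h2
  have h6 : K₀.relIndex H * H.relIndex K = K₀.relIndex K :=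
    Subgroup.relIndex_mul_relIndex _ _ _ (h1.trans h2) h3
  rw [← h6, ← h5]
  exact Dvd.dvd.mul_right (Dvd.dvd.mul_left h4 _) _

private theorem cliff_le {X : Type} [Group X] {p : ℕ} {T : Subgroup (MulAut X)}
    {K₀ K : Subgroup X} (hE : Es p T K₀ K) : K₀ ≤ K := by
  obtain ⟨H, Y, h1, h2, h3, -, -⟩ := hE
  exact (h1.trans h2).trans h3

private theorem cliff_pos {X : Type} [Group X] [Finite X] (A B : Subgroup X) :
    0 < A.relIndex B :=
  Nat.pos_of_ne_zero (Subgroup.index_ne_zero_of_finite (H := A.subgroupOf B))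

private theorem cliff_two {X : Type} [Group X] [Finite X] {A B : Subgroup X} (h : A < B) :
    2 ≤ A.relIndex B := by
  have h1 := cliff_pos A B
  have h2 : A.relIndex B ≠ 1 := fun h3 => h.not_ge (Subgroup.relIndex_eq_one.1 h3)
  omega

private theorem cliff_aux {X : Type} [Group X] [Finite X] {p : ℕ} (hp : p.Prime)
    {L T : Subgroup (MulAut X)} (hTL : T ≤ L) (hTn : ∀ l ∈ L, ∀ t ∈ T, l * t * l⁻¹ ∈ T)
    {N : Subgroup X} (hN : N ≤ Subgroup.center X) (n : ℕ) :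
    ∀ K₀ K : Subgroup X, K₀.relIndex K = n → K ≤ N → (∀ l ∈ L, ∀ x ∈ K₀, l x ∈ K₀) →
      (∀ l ∈ L, ∀ x ∈ K, l x ∈ K) → Es p T K₀ K →
      ∃ H Y : Subgroup X, Y < H ∧ H ≤ N ∧ (∀ l ∈ L, ∀ x ∈ H, l x ∈ H) ∧
        (∀ l ∈ L, ∀ x ∈ Y, l x ∈ Y) ∧ (∀ t ∈ T, ∀ x ∈ H, t x * x⁻¹ ∈ Y) ∧ p ∣ Y.relIndex H := by
  induction n using Nat.strong_induction_on with
  | _ n ih =>
    intro K₀ K hn hKN h0 hK hE
    by_cases hU : ∃ U : Subgroup X, K₀ ≤ U ∧ U ≤ K ∧ (∀ l ∈ L, ∀ x ∈ U, l x ∈ U) ∧ U ≠ K₀ ∧ U ≠ K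
    · obtain ⟨U, h1, h2, h3, h4, h5⟩ := hU
      have h6 : K₀.relIndex U * U.relIndex K = K₀.relIndex K :=
        Subgroup.relIndex_mul_relIndex _ _ _ h1 h2
      have h7 := cliff_two (lt_of_le_of_ne h1 (Ne.symm h4))
      have h8 := cliff_two (lt_of_le_of_ne h2 h5)
      rcases es_split hp (hKN.trans hN) h1 h2 (fun t ht x hx => h3 t (hTL ht) x hx) hE with h9 | h9
      · exact ih _ (by rw [← hn, ← h6]; nlinarith) K₀ U rfl (h2.trans hKN) h0 h3 h9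
      · exact ih _ (by rw [← hn, ← h6]; nlinarith) U K rfl hKN h3 hK h9
    · have hp1 := cliff_dvd hE
      have hle := cliff_le hE
      have hlt : K₀ < K := by
        refine lt_of_le_of_ne hle fun h1 => ?_
        rw [h1, Subgroup.relIndex_self, Nat.dvd_one] at hp1
        exact hp.one_lt.ne' hp1
      refine ⟨K, K₀, hlt, hKN, hK, h0, ?_, hp1⟩
      refine es_irr hp hTL hTn (hKN.trans hN) hlt h0 hK (fun U h1 h2 h3 => ?_) hE
      by_contra h4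
      push Not at h4
      exact hU ⟨U, h1, h2, h3, h4.1, h4.2⟩

/-- From a section centralised by `T` to an `L`-invariant one.

PROOF. Among the pairs `K₀ ≤ K` of `L`-invariant subgroups with `K ≤ N` and `Es p T K₀ K` (`⊥, N` is one of them) choose one with
`K₀.relIndex K` minimal. `K₀ < K` because `p` divides `Y.relIndex H` (`K₀ ≤ Y ≤ H ≤ K`). If `U` is `L`-invariant with `K₀ ≤ U ≤ K`, different
from both, then `es_split` gives a pair with a smaller index (`Subgroup.relIndex_mul_relIndex`). So `es_irr` applies, and `H' = K`, `Y' = K₀`;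
`p ∣ Y.relIndex H ∣ K₀.relIndex K`. -/
theorem cliff {X : Type} [Group X] [Finite X] {p : ℕ} (hp : p.Prime) {L T : Subgroup (MulAut X)}
    (hTL : T ≤ L) (hTn : ∀ l ∈ L, ∀ t ∈ T, l * t * l⁻¹ ∈ T)
    {N : Subgroup X} (hN : N ≤ Subgroup.center X) (hLN : ∀ l ∈ L, ∀ x ∈ N, l x ∈ N)
    (hE : Es p T ⊥ N) :
    ∃ H Y : Subgroup X, Y < H ∧ H ≤ N ∧ (∀ l ∈ L, ∀ x ∈ H, l x ∈ H) ∧ (∀ l ∈ L, ∀ x ∈ Y, l x ∈ Y) ∧
      (∀ t ∈ T, ∀ x ∈ H, t x * x⁻¹ ∈ Y) ∧ p ∣ Y.relIndex H := by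
  refine cliff_aux hp hTL hTn hN _ ⊥ N rfl le_rfl (fun l _ x hx => ?_) hLN hE
  rw [Subgroup.mem_bot] at hx ⊢
  rw [hx, map_one]

end Mnf

end MP799fdf
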