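import Pool.Agent.Lib.MP_799fdf_al.Mnf.BasA

/-! # The components of `K` are local subgroups -/

set_option autoImplicit false

open scoped commutatorElement

namespace MP799fdf

namespace Mnf

open Inn

variable {G : Type} [Group G] {p : ℕ} {R H Z A B : Subgroup G} [Z.Normal] {M : Type} [AddCommGroup M] {θ : M → R} {m₀ : M}
variable {V K : Type} [Group K]

theorem comp_range_normal (S : Setup G p R H Z A B θ m₀) (C : Comp G R H Z θ V K) (v : V) :
    (C.ι v).range.Normal := by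
  refine ⟨?_⟩
  rintro _ ⟨r, rfl⟩ k
  obtain ⟨g, hg⟩ := QuotientGroup.mk_surjective (C.π v k)
  have hR := S.loc.nR
  exact ⟨⟨g * r * g⁻¹, hR.conj_mem r r.2 g⟩,
    (C.conj v k g r ⟨g * r * g⁻¹, hR.conj_mem r r.2 g⟩ hg.symm rfl).symm⟩

theorem comp_comm (C : Comp G R H Z θ V K) {v w : V} (hvw : v ≠ w) (r s : R) :
    C.ι v r * C.ι w s = C.ι w s * C.ι v r := by
  have h1 := C.conj v (C.ι w s) 1 r r (C.off w v s hvw.symm) (by simp)
  exact (mul_inv_eq_iff_eq_mul.1 h1).symm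

theorem comp_cen (S : Setup G p R H Z A B θ m₀) (C : Comp G R H Z θ V K) (v : V) (r s : R)
    (hr : (r : G) ∈ H) : C.ι v r * C.ι v s = C.ι v s * C.ι v r := by
  have h1 : r * s = s * r := Subtype.ext ((S.cen _).1 (S.HZ hr) s s.2)
  rw [← map_mul, ← map_mul, h1]

theorem comp_range_inj (S : Setup G p R H Z A B θ m₀) (C : Comp G R H Z θ V K) {v w : V}
    (hvw : (C.ι v).range = (C.ι w).range) : v = w := by
  by_contra hne
  refine absurd S.loc.lt (not_lt_of_ge fun r hr => ?_)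
  have h1 : C.ι v ⟨r, hr⟩ ∈ (C.ι w).range := by
    rw [← hvw]
    exact ⟨_, rfl⟩
  obtain ⟨s, hs⟩ := h1
  have h2 := C.off w v s (Ne.symm hne)
  rw [hs, C.diag] at h2
  exact S.RZ r hr ((QuotientGroup.eq_one_iff r).1 h2)

theorem comp_loc (S : Setup G p R H Z A B θ m₀) (C : Comp G R H Z θ V K) (v : V) :
    Loc (C.ι v).range ((H.subgroupOf R).map (C.ι v)) := by
  have hR := S.loc.nR
  have hH := S.loc.nN
  refine ⟨comp_range_normal S C v, ⟨?_⟩, ?_, ?_, ?_⟩
  · rintro _ ⟨r, hr, rfl⟩ k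
    obtain ⟨g, hg⟩ := QuotientGroup.mk_surjective (C.π v k)
    exact ⟨⟨g * r * g⁻¹, hR.conj_mem r r.2 g⟩, hH.conj_mem r (Subgroup.mem_subgroupOf.1 hr) g,
      (C.conj v k g r ⟨g * r * g⁻¹, hR.conj_mem r r.2 g⟩ hg.symm rfl).symm⟩
  · refine lt_of_le_not_ge (Subgroup.map_le_range _ _) fun hle => ?_
    refine absurd S.loc.lt (not_lt_of_ge fun r hr => ?_)
    obtain ⟨s, hs, hse⟩ := Subgroup.mem_map.1 (hle ⟨⟨r, hr⟩, rfl⟩)
    have h1 := C.inj v hse
    rw [h1] at hs
    exact hs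
  · rw [MonoidHom.range_eq_map, ← Subgroup.map_commutator, perf_top S.loc.perf]
  · intro M hM hMR
    have hn : ((M.comap (C.ι v)).map R.subtype).Normal := by
      refine ⟨?_⟩
      rintro _ ⟨r, hr, rfl⟩ g
      obtain ⟨k, hk⟩ := C.surj v (g : G ⧸ Z)
      have h1 := C.conj v k g r ⟨g * r * g⁻¹, hR.conj_mem r r.2 g⟩ hk rfl
      refine ⟨⟨g * r * g⁻¹, hR.conj_mem r r.2 g⟩, ?_, rfl⟩
      show C.ι v _ ∈ M
      rw [← h1]
      exact hM.conj_mem _ hr k
    have hle : (M.comap (C.ι v)).map R.subtype ≤ R := by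
      rintro _ ⟨r, -, rfl⟩
      exact r.2
    rcases S.loc.max _ hn hle with h1 | h1
    · left
      intro x hx
      obtain ⟨r, rfl⟩ := hMR hx
      exact ⟨r, h1 ⟨r, hx, rfl⟩, rfl⟩
    · right
      refine le_antisymm hMR ?_
      rintro _ ⟨r, rfl⟩
      have h2 : (r : G) ∈ (M.comap (C.ι v)).map R.subtype := by
        rw [h1]
        exact r.2
      obtain ⟨s, hs, hse⟩ := h2
      have h3 : s = r := Subtype.ext hse
      rw [← h3]
      exact hs

theorem comp_index (C : Comp G R H Z θ V K) (v : V) :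
    ((H.subgroupOf R).map (C.ι v)).relIndex (C.ι v).range = H.relIndex R := by
  rw [MonoidHom.range_eq_map, Subgroup.relIndex_map_map_of_injective _ _ (C.inj v),
    Subgroup.relIndex_top_right]
  rfl

end Mnf

end MP799fdf
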