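import Pool.Agent.Lib.MP_799fdf_al.Inn.LocB

/-!
# Infinitely many subformations, module version: definitions

`Setup G p R H Z A B θ m₀`: `R` is a perfect normal subgroup of `G`, `H` its largest proper `G`-normal
subgroup, `H` is central in `R`, `Z` is the centraliser of `R` in `G`; `B / A` is an elementary abelian
`p`-section, `R Z ≤ A < B`, `A` characteristic modulo `Z`; `θ` is an embedding of an elementary abelian `p`-group `M` into `H`
whose image is invariant under lifts and is centralised by `B`; `m₀ ≠ 0`, and `θ m₀` is fixed by the lifts of the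
automorphisms that are trivial modulo `A`.
-/

set_option autoImplicit false

open scoped commutatorElement

namespace MP799fdf

namespace Mnf

open Inn

/-- The hypotheses on `G`. -/
structure Setup (G : Type) [Group G] (p : ℕ) (R H Z A B : Subgroup G) [Z.Normal] {M : Type}
    [AddCommGroup M] (θ : M → R) (m₀ : M) : Prop where
  hp : p.Prime
  loc : Loc R H
  cen : ∀ g : G, g ∈ Z ↔ ∀ r ∈ R, g * r = r * g
  HZ : H ≤ Z
  uniq : ∀ L N : Subgroup G, Loc L N → N.relIndex L = H.relIndex R → L = R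
  nA : A.Normal
  nB : B.Normal
  RA : R ≤ A
  ZA : Z ≤ A
  AB : A < B
  BA : ⁅B, B⁆ ≤ A
  Bp : ∀ b ∈ B, b ^ p ∈ A
  charA : ∀ (σ : (G ⧸ Z) ≃* (G ⧸ Z)) (x y : G), σ (x : G ⧸ Z) = (y : G ⧸ Z) → x ∈ A → y ∈ A
  add : ∀ a b, θ (a + b) = θ a * θ b
  inj : Function.Injective θ
  mem : ∀ a, ((θ a : R) : G) ∈ H
  comm : ∀ b ∈ B, ∀ a, b * ((θ a : R) : G) = ((θ a : R) : G) * b
  m0 : m₀ ≠ 0
  nt1 : ∀ σ : (G ⧸ Z) ≃* (G ⧸ Z), ∃ τ : R ≃* R,
    (∀ r : R, (((τ r : R) : G) : G ⧸ Z) = σ ((r : G) : G ⧸ Z)) ∧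
      ∀ a, ∃ a', τ (θ a) = θ a'
  nt2 : ∀ σ : (G ⧸ Z) ≃* (G ⧸ Z), (∀ x y : G, σ (x : G ⧸ Z) = (y : G ⧸ Z) → x⁻¹ * y ∈ A) →
    ∀ τ : R ≃* R, (∀ r : R, (((τ r : R) : G) : G ⧸ Z) = σ ((r : G) : G ⧸ Z)) →
      τ (θ m₀) = θ m₀

/-- `K` has normal subgroups isomorphic to `R`, indexed by `V`, which share the elements `θ a`. -/
structure Comp (G : Type) [Group G] (R H Z : Subgroup G) [Z.Normal] {M : Type} (θ : M → R) (V K : Type)
    [Group K] where
  /-- the embeddings of `R` -/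
  ι : V → R →* K
  /-- the coordinates modulo `Z` -/
  π : V → K →* G ⧸ Z
  inj : ∀ v, Function.Injective (ι v)
  surj : ∀ v, Function.Surjective (π v)
  conj : ∀ (v : V) (k : K) (g : G) (r s : R), π v k = (g : G ⧸ Z) → (s : G) = g * r * g⁻¹ →
    k * ι v r * k⁻¹ = ι v s
  diag : ∀ (v : V) (r : R), π v (ι v r) = ((r : G) : G ⧸ Z)
  off : ∀ (v w : V) (r : R), v ≠ w → π w (ι v r) = 1
  same : ∀ (v w : V) (a : M), ι v (θ a) = ι w (θ a)
  vis : ∀ L N : Subgroup K, Loc L N → N.relIndex L = H.relIndex R → ∃ v, ¬ L ≤ (π v).ker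

/-- A weight function on tuples of elements of `G / Z` that is compatible with the automorphisms. -/
def Equi {G : Type} [Group G] {R Z : Subgroup G} [Z.Normal] {M : Type} (θ : M → R) {I : Type}
    (Φ : (I → G ⧸ Z) → M) : Prop :=
  ∀ (σ : (G ⧸ Z) ≃* (G ⧸ Z)) (τ : R ≃* R),
    (∀ r : R, (((τ r : R) : G) : G ⧸ Z) = σ ((r : G) : G ⧸ Z)) →
      ∀ z : I → G ⧸ Z, τ (θ (Φ z)) = θ (Φ fun i => σ (z i))

/-- the local subgroups whose chief factor has order `k` -/
def LL (P : Type) [Group P] (k : ℕ) : Type :=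
  {L : Subgroup P // ∃ N, Loc L N ∧ N.relIndex L = k}

section

variable {G : Type} [Group G] {p : ℕ} {R H Z A B : Subgroup G} [Z.Normal] {M : Type}
  [AddCommGroup M] {θ : M → R} {m₀ : M}

/-- PROOF. `R ⊓ Z` is normal, so it is `≤ H` or `= R` (`S.loc.max`); in the second case `R ≤ Z`, so `R` is
commutative (`S.cen`), `⁅R, R⁆ = ⊥`, against `S.loc.perf`, `S.loc.lt`. -/
theorem Setup.RZ (S : Setup G p R H Z A B θ m₀) (r : G) (hr : r ∈ R) (hz : r ∈ Z) : r ∈ H := by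
  have hR := S.loc.nR
  have hn : (R ⊓ Z).Normal := Subgroup.normal_inf_normal R Z
  rcases S.loc.max _ hn inf_le_left with h1 | h1
  · exact h1 ⟨hr, hz⟩
  · exfalso
    have h2 : R ≤ Z := inf_eq_left.1 h1
    have h3 : ⁅R, R⁆ = ⊥ := by
      rw [Subgroup.commutator_eq_bot_iff_le_centralizer]
      intro x hx
      rw [Subgroup.mem_centralizer_iff]
      intro y hy
      exact (S.cen y).1 (h2 hy) x hx
    rw [S.loc.perf] at h3
    have h4 := S.loc.lt
    rw [h3] at h4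
    exact not_lt_bot h4

theorem Setup.zero (S : Setup G p R H Z A B θ m₀) : θ 0 = 1 := by
  have h1 := S.add 0 0
  rw [add_zero] at h1
  exact left_eq_mul.1 h1

theorem Setup.neg (S : Setup G p R H Z A B θ m₀) (a : M) : θ (-a) = (θ a)⁻¹ := by
  rw [eq_inv_iff_mul_eq_one, ← S.add, neg_add_cancel, S.zero]

theorem Setup.eq_one (S : Setup G p R H Z A B θ m₀) (a : M) : θ a = 1 ↔ a = 0 := by
  rw [← S.zero]
  exact S.inj.eq_iff

end

end Mnf

end MP799fdf
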