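import Pool.Agent.Lib.MP_799fdf_al.Inn.Base

set_option autoImplicit false

open scoped commutatorElement

namespace MP799fdf

namespace Mnf

open Inn

/-- between `K₀` and `K` there is a section of order divisible by `p` which is centralised by `T` -/
def Es {X : Type} [Group X] (p : ℕ) (T : Subgroup (MulAut X)) (K₀ K : Subgroup X) : Prop :=
  ∃ H Y : Subgroup X, K₀ ≤ Y ∧ Y ≤ H ∧ H ≤ K ∧ p ∣ Y.relIndex H ∧ ∀ t ∈ T, ∀ x ∈ H, t x * x⁻¹ ∈ Y

end Mnf

end MP799fdf
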