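import Pool.Agent.Lib.MP_799fdf_al.Mnf.StC
import Pool.Agent.Lib.MP_799fdf_al.Cry.WeaA
import Pool.Agent.Lib.MP_799fdf_al.Cry.WeaC

/-! # The criterion, final version -/

set_option autoImplicit false

open scoped commutatorElement

namespace MP799fdf

namespace Mnf

open Inn
open Cop (TT TA)
open Tw (TB TC)
open Tz (CZ Dg BC)
open Cry (ZZ Cri CriD LP Dir Lift)

/-- THE THEOREM. -/
theorem main5 (G : Type) [Group G] [Finite G] (h1 : CZ G)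
    (hL : ∀ τ : TT G, (∃ p, Cri p τ.2) → LP τ.1.1 (ZZ τ))
    (hDir : ∀ τ : TT G, (∃ p, CriD p τ) → Dir τ.1.1 τ.1.2)
    (hS : ∀ (τ : TT G) p, CriD p τ → Ste p τ.1.1 τ.1.2 (ZZ τ)) :
    {F : Formation | F.IsSub (form G)}.Finite ↔ ∀ (τ : TT G) p, ¬ CriD p τ := by
  constructor
  · intro hfin τ p hc
    have hc' := Cry.cri_of_criD τ p hc
    have hLP := hL τ ⟨p, hc'⟩
    obtain ⟨D, hD, hRD, hother⟩ := hDir τ ⟨p, hc⟩
    have hZ : ZZ τ = Subgroup.centralizer (τ.1.1 : Set G) := Tz.cen_eq τ.2 (h1 _ _ τ.2)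
    have hZ' : ∀ g : G, g ∈ ZZ τ ↔ ∀ r ∈ τ.1.1, g * r = r * g := by
      intro g
      rw [hZ, Subgroup.mem_centralizer_iff]
      exact ⟨fun H r hr => (H r hr).symm, fun H r hr => (H r hr).symm⟩
    refine inf_ste hc.1 τ.2 hZ' ?_ hRD hother
      (fun σ => hLP τ.1.1 τ.1.2 (ZZ τ) τ.2 hZ σ) (hS τ p hc) hfin
    intro n hn
    rw [hZ']
    intro r hr
    have h5 : ⁅n, r⁆ ∈ ⁅τ.1.2, τ.1.1⁆ := Subgroup.commutator_mem_commutator hn hr
    rw [h1 _ _ τ.2, Subgroup.mem_bot] at h5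
    exact commutatorElement_eq_one_iff_commute.1 h5
  · intro h
    refine Tx.mainX (Cry.xsys h1) h1 (fun τ hτ => ?_) fun τ hτ H Y hS p hp hd B hB hpB => ?_
    · exact Cry.dg_of_not_cri τ.2 (h1 _ _ τ.2) fun hc => hτ (Cry.lt_of_lp h1 τ (hL τ hc))
    · exact h τ p (Cry.criD_of_sec h1 τ H Y hS p hp hd B hB hpB)

end Mnf

end MP799fdf
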