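import Pool.Agent.Lib.MP_799fdf_al.Mnf.RigB
import Pool.Agent.Lib.MP_799fdf_al.Mnf.Cnt

/-! # The main argument -/

set_option autoImplicit false

open scoped commutatorElement

namespace MP799fdf

namespace Mnf

open Inn

variable {G : Type} [Group G] {p : ℕ} {R H Z A B : Subgroup G} [Z.Normal] {M : Type} [AddCommGroup M] {θ : M → R} {m₀ : M}
variable {V K V' K' P J : Type} [Group K] [Group K'] [Group P]

/-- PROOF. `L ≠ ⊥` (`Loc.ne_bot`) and the intersection of the kernels is trivial. -/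
theorem exists_visible (φ : J → P →* K) (hφi : ∀ x, (∀ j, φ j x = 1) → x = 1)
    {L N : Subgroup P} (hL : Loc L N) : ∃ j, ¬ L ≤ (φ j).ker := by
  by_contra hcon
  push Not at hcon
  apply hL.ne_bot
  rw [Subgroup.eq_bot_iff_forall]
  intro x hx
  exact hφi x fun j => MonoidHom.mem_ker.1 (hcon j hx)

/-- The weighted marked element of a local subgroup `L`.

PROOF. `exists_visible` gives `j₀`, `comp_image` gives `v₀` with `L.map (φ j₀) = (C.ι v₀).range`; let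
`e ∈ L` with `φ j₀ e = C.ι v₀ (θ (Φ fun i => C.π v₀ (φ j₀ (y i))))`. The first and the third
property are `rigid_w`. -/
theorem exists_mark [Finite P] [Finite G] [Finite K] [Finite K'] (S : Setup G p R H Z A B θ m₀)
    (C : Comp G R H Z θ V K) (C' : Comp G R H Z θ V' K') (φ : J → P →* K)
    (hφ : ∀ j, Function.Surjective (φ j)) (hφi : ∀ x, (∀ j, φ j x = 1) → x = 1) (ψ : P →* K')
    (hψ : Function.Surjective ψ) {I : Type} (Φ : (I → G ⧸ Z) → M) (hΦ : Equi θ Φ)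
    (y : I → P) {L N : Subgroup P} (hL : Loc L N)
    (hi : N.relIndex L = H.relIndex R) :
    ∃ e : P, (∀ j v, L.map (φ j) = (C.ι v).range →
        φ j e = C.ι v (θ (Φ fun i => C.π v (φ j (y i))))) ∧
      (∀ j, L ≤ (φ j).ker → φ j e = 1) ∧
      (∀ v', L.map ψ = (C'.ι v').range →
        ψ e = C'.ι v' (θ (Φ fun i => C'.π v' (ψ (y i))))) ∧
      (L ≤ ψ.ker → ψ e = 1) := by
  obtain ⟨j₀, hj₀⟩ := exists_visible φ hφi hL
  obtain ⟨v₀, hv₀⟩ := comp_image S C (φ j₀) (hφ j₀) hL hi hj₀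
  have hr₀ : C.ι v₀ (θ (Φ fun i => C.π v₀ (φ j₀ (y i)))) ∈ L.map (φ j₀) := by
    rw [hv₀]
    exact ⟨_, rfl⟩
  obtain ⟨e, he, her⟩ := Subgroup.mem_map.1 hr₀
  refine ⟨e, fun j v hv => ?_, fun j hj => MonoidHom.mem_ker.1 (hj he), fun v' hv' => ?_,
    fun hj => MonoidHom.mem_ker.1 (hj he)⟩
  · exact rigid_w S C C (φ j₀) (hφ j₀) (φ j) (hφ j) hL hi hv₀ hv Φ hΦ y e he her
  · exact rigid_w S C C' (φ j₀) (hφ j₀) ψ hψ hL hi hv₀ hv' Φ hΦ y e he her

end Mnf

end MP799fdf
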