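import Pool.Agent.Lib.MP_799fdf_al.Mnf.MainA

/-! # The product of the marked elements -/

set_option autoImplicit false

open scoped commutatorElement

namespace MP799fdf

namespace Mnf

open Inn

variable {G : Type} [Group G] {p : ℕ} {R H Z A B : Subgroup G} [Z.Normal] {M : Type} [AddCommGroup M] {θ : M → R} {m₀ : M}
variable {V K P : Type} [Group K] [Group P]

/-- PROOF. Fix `v₀ : V`. For every `L`, `ψ (e L) = C.ι v₀ (θ (n L))` where `n L = 0` if `L ≤ ψ.ker` and
`n L = Φ fun i => C.π v (ψ (y i))` for `v` with `L.map ψ = (C.ι v).range` (`comp_image`, `C.same`)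
otherwise. By `list_prod_hom` the image of the product is `C.ι v₀ (θ N)`, `N = ∑ L, n L = ∑ v, Φ ..`. -/
theorem prod_marks [Finite P] [Finite G] [Finite K] [Fintype V] [Nonempty V]
    (S : Setup G p R H Z A B θ m₀) (C : Comp G R H Z θ V K) (ψ : P →* K) (hψ : Function.Surjective ψ)
    {I : Type} (Φ : (I → G ⧸ Z) → M) (y : I → P)
    [Fintype (LL P (H.relIndex R))] (e : LL P (H.relIndex R) → P)
    (he1 : ∀ (L : LL P (H.relIndex R)) (v : V), L.1.map ψ = (C.ι v).range →
      ψ (e L) = C.ι v (θ (Φ fun i => C.π v (ψ (y i)))))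
    (he2 : ∀ L : LL P (H.relIndex R), L.1 ≤ ψ.ker → ψ (e L) = 1) :
    ψ ((Finset.univ.toList.map e).prod) = 1 ↔ ∑ v : V, (Φ fun i => C.π v (ψ (y i))) = 0 := by
  classical
  obtain ⟨v₀⟩ := ‹Nonempty V›
  obtain ⟨ε, hε⟩ := exists_equiv S C ψ hψ
  let w : V → M := fun v => Φ fun i => C.π v (ψ (y i))
  let n : LL P (H.relIndex R) → M :=
    fun L => if hL : ¬ L.1 ≤ ψ.ker then w (ε ⟨L, hL⟩) else 0
  have h1 : ∀ L, ψ (e L) = C.ι v₀ (θ (n L)) := by
    intro L
    by_cases hL : ¬ L.1 ≤ ψ.ker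
    · have hn : n L = w (ε ⟨L, hL⟩) := dif_pos hL
      rw [hn, he1 L (ε ⟨L, hL⟩) (hε ⟨L, hL⟩)]
      exact C.same _ _ _
    · have hn : n L = 0 := dif_neg hL
      rw [hn, he2 L (not_not.1 hL), S.zero, map_one]
  have h3 : ∑ L, n L = ∑ v, w v := by
    rw [← Fintype.sum_subtype_add_sum_subtype (fun L : LL P (H.relIndex R) => ¬ L.1 ≤ ψ.ker) n,
      Finset.sum_eq_zero (s := (Finset.univ : Finset {L : LL P (H.relIndex R) // ¬ ¬ L.1 ≤ ψ.ker}))
        (fun L _ => dif_neg L.2), add_zero, ← Equiv.sum_comp ε w]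
    exact Finset.sum_congr rfl fun L _ => dif_pos L.2
  have h4 : ψ ((Finset.univ.toList.map e).prod) = C.ι v₀ (θ (∑ v, w v)) := by
    rw [map_list_prod, List.map_map, ← h3, ← Finset.sum_map_toList, ← list_prod_hom
      (fun a => C.ι v₀ (θ a)) (by rw [S.zero, map_one]) (fun a b => by rw [S.add, map_mul])]
    congr 1
    exact List.map_congr_left fun L _ => h1 L
  rw [h4]
  constructor
  · intro h5
    exact (S.eq_one _).1 (C.inj v₀ (h5.trans (map_one _).symm))
  · intro h5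
    rw [show ∑ v, w v = 0 from h5, S.zero, map_one]

end Mnf

end MP799fdf
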