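import Pool.Agent.Lib.MP_799fdf_al.Mnf.Defs

set_option autoImplicit false

open scoped commutatorElement

namespace MP799fdf

namespace Mnf

open Inn

/-- PROOF. `M := Additive W` where `W` is a commutative group: `w * w' = w' * w` because `(w : G) ∈ H ≤ Z` commutes with the
elements of `R` (`hcen`); so there is a `CommGroup W` instance extending the group structure of `W`
(`{ (inferInstance : Group W) with mul_comm := .. }`), `AddCommGroup (Additive W)`, and
`Module (ZMod p) (Additive W) := AddCommGroup.zmodModule (by ..)` from `hWp`. `θ := fun m => ((Additive.toMul m : W) : R)`,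
`m₀ := Additive.ofMul ⟨w₀, hw₀⟩`. -/
theorem setup_mk {G : Type} [Group G] {p : ℕ} {R H Z A B : Subgroup G} [Z.Normal]
    (hp : p.Prime) (hloc : Loc R H) (hcen : ∀ g : G, g ∈ Z ↔ ∀ r ∈ R, g * r = r * g) (hHZ : H ≤ Z)
    (huniq : ∀ L N : Subgroup G, Loc L N → N.relIndex L = H.relIndex R → L = R)
    (hA : A.Normal) (hB : B.Normal) (hRA : R ≤ A) (hZA : Z ≤ A) (hAB : A < B) (hBA : ⁅B, B⁆ ≤ A)
    (hBp : ∀ b ∈ B, b ^ p ∈ A)
    (hchar : ∀ (σ : (G ⧸ Z) ≃* (G ⧸ Z)) (x y : G), σ (x : G ⧸ Z) = (y : G ⧸ Z) → x ∈ A → y ∈ A)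
    (W : Subgroup R) (hWH : ∀ w ∈ W, (w : G) ∈ H) (hWp : ∀ w ∈ W, w ^ p = 1)
    (hWB : ∀ w ∈ W, ∀ b ∈ B, b * (w : G) = (w : G) * b)
    (hnt1 : ∀ σ : (G ⧸ Z) ≃* (G ⧸ Z), ∃ τ : R ≃* R,
      (∀ r : R, (((τ r : R) : G) : G ⧸ Z) = σ ((r : G) : G ⧸ Z)) ∧ ∀ w ∈ W, τ w ∈ W)
    (w₀ : R) (hw₀ : w₀ ∈ W) (hne : w₀ ≠ 1)
    (hnt2 : ∀ σ : (G ⧸ Z) ≃* (G ⧸ Z), (∀ x y : G, σ (x : G ⧸ Z) = (y : G ⧸ Z) → x⁻¹ * y ∈ A) →
      ∀ τ : R ≃* R, (∀ r : R, (((τ r : R) : G) : G ⧸ Z) = σ ((r : G) : G ⧸ Z)) → τ w₀ = w₀) :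
    ∃ (M : Type) (_ : AddCommGroup M) (_ : Module (ZMod p) M) (θ : M → R) (m₀ : M),
      Setup G p R H Z A B θ m₀ := by
  have hcomm : ∀ a b : W, a * b = b * a := by
    intro a b
    apply Subtype.ext
    apply Subtype.ext
    have h1 : ((a : R) : G) ∈ Z := hHZ (hWH a a.2)
    exact (hcen _).1 h1 _ (b : R).2
  let _ : CommGroup W := { (inferInstance : Group W) with mul_comm := hcomm }
  let _ : Module (ZMod p) (Additive W) := AddCommGroup.zmodModule (n := p) (by
    intro x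
    apply Additive.toMul.injective
    apply Subtype.ext
    exact hWp _ (Additive.toMul x).2)
  refine ⟨Additive W, inferInstance, inferInstance, fun m => ((Additive.toMul m : W) : R),
    Additive.ofMul ⟨w₀, hw₀⟩, ?_⟩
  exact
    { hp := hp
      loc := hloc
      cen := hcen
      HZ := hHZ
      uniq := huniq
      nA := hA
      nB := hB
      RA := hRA
      ZA := hZA
      AB := hAB
      BA := hBA
      Bp := hBp
      charA := hchar
      add := fun a b => rfl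
      inj := fun a b h => Additive.toMul.injective (Subtype.ext h)
      mem := fun a => hWH _ (Additive.toMul a).2
      comm := fun b hb a => hWB _ (Additive.toMul a).2 b hb
      m0 := by
        intro h
        apply hne
        have h1 := congrArg (fun m : Additive W => ((Additive.toMul m : W) : R)) h
        exact h1
      nt1 := by
        intro σ
        obtain ⟨τ, h1, h2⟩ := hnt1 σ
        exact ⟨τ, h1, fun a => ⟨Additive.ofMul ⟨τ ((Additive.toMul a : W) : R),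
          h2 _ (Additive.toMul a).2⟩, rfl⟩⟩
      nt2 := fun σ hσ τ hτ => hnt2 σ hσ τ hτ }

end Mnf

end MP799fdf
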