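import Pool.Agent.Lib.MP_799fdf_al.Knf.KtA
import Pool.Agent.Lib.MP_799fdf_al.Mnf.BasB

/-! # The group `K`: affine functions modulo functions of product `1` with values in `⟨h⟩` -/

set_option autoImplicit false

open scoped commutatorElement

namespace MP799fdf

namespace Mnf

open Inn
open Knf (Kt mem_kt kt_const kt_of_mem)

/-- the functions with values in the image of `θ` and of product `1` -/
def JJ {G : Type} [Group G] {p : ℕ} {R H Z A B : Subgroup G} [Z.Normal] {M : Type} [AddCommGroup M]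
    {θ : M → R} {m₀ : M} (S : Setup G p R H Z A B θ m₀) (V : Type) [Fintype V] : Subgroup (V → G) where
  carrier := {t | ∃ a : V → M, ∑ v, a v = 0 ∧ ∀ v, t v = ((θ (a v) : R) : G)}
  one_mem' := ⟨fun _ => 0, by simp, fun v => by rw [S.zero]; rfl⟩
  mul_mem' := by
    rintro s t ⟨a, ha, hs⟩ ⟨b, hb, ht⟩
    refine ⟨fun v => a v + b v, by rw [Finset.sum_add_distrib, ha, hb, add_zero], fun v => ?_⟩
    rw [Pi.mul_apply, hs, ht, S.add]
    rfl
  inv_mem' := by
    rintro s ⟨a, ha, hs⟩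
    refine ⟨fun v => - a v, by rw [Finset.sum_neg_distrib, ha, neg_zero], fun v => ?_⟩
    rw [Pi.inv_apply, hs, S.neg]
    rfl

section

variable {G : Type} [Group G] {p : ℕ} {R H Z A B : Subgroup G} [Z.Normal] [A.Normal] {M : Type} [AddCommGroup M] {θ : M → R} {m₀ : M}

/-- The values of a function in `Kt` lie in one coset of `B`. -/
private theorem quo_kt_mem_B {hB : B.Normal} {hBA : ⁅B, B⁆ ≤ A} (hAB : A ≤ B) {V : Type}
    [AddCommGroup V] {x : V → G} (hx : x ∈ Kt A B hB hBA V) (v : V) : (x 0)⁻¹ * x v ∈ B := by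
  obtain ⟨b, hb, hb2⟩ := (mem_kt.1 hx).1 v
  have h1 : ((b : G) : G ⧸ A) = (((x 0)⁻¹ * x v : G) : G ⧸ A) := hb2
  have h2 : b⁻¹ * ((x 0)⁻¹ * x v) ∈ A := QuotientGroup.eq.1 h1
  have h3 := B.mul_mem hb (hAB h2)
  rwa [mul_inv_cancel_left] at h3

/-- Conjugation by elements of `Kt` preserves `JJ`. -/
private theorem quo_jj_conj (S : Setup G p R H Z A B θ m₀) {V : Type} [AddCommGroup V] [Fintype V]
    {x t : V → G} (hx : x ∈ Kt A B S.nB S.BA V) (ht : t ∈ JJ S V) : x * t * x⁻¹ ∈ JJ S V := by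
  obtain ⟨a, ha, hta⟩ := ht
  obtain ⟨κ, hκ, hκ2⟩ := S.conj_θ (x 0)
  have hsum : ∀ (s : Finset V), ∑ v ∈ s, κ (a v) = κ (∑ v ∈ s, a v) := fun s =>
    (map_sum (AddMonoidHom.mk' κ hκ) a s).symm
  have h0 : κ 0 = 0 := (AddMonoidHom.mk' κ hκ).map_zero
  refine ⟨fun v => κ (a v), by rw [hsum, ha, h0], fun v => ?_⟩
  have hb := quo_kt_mem_B S.AB.le hx v
  have hc : Commute ((x 0)⁻¹ * x v) ((θ (a v) : R) : G) := S.comm _ hb (a v)
  have hxv : x v = x 0 * ((x 0)⁻¹ * x v) := by rw [mul_inv_cancel_left]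
  rw [Pi.mul_apply, Pi.mul_apply, Pi.inv_apply, hta, hκ2]
  generalize ((θ (a v) : R) : G) = y at hc
  generalize (x 0)⁻¹ * x v = b at hc hxv
  rw [hxv]
  have h2 : x 0 * b * y = x 0 * y * b := by
    rw [mul_assoc, hc.eq, ← mul_assoc]
  rw [h2]
  group

/-- PROOF. `K = Kt ⧸ (JJ S V).subgroupOf Kt`; the subgroup is normal: let `x ∈ Kt`, `t v = h ^ a v`. By
`mem_kt` `x v = x 0 * b` with `b ∈ B` (`A ≤ B`), `b` commutes with `h` (`S.B_central`), and
`x 0 * h * (x 0)⁻¹ = h ^ k` (`S.conj_h`, `k : ℤ`), so `x v * t v * (x v)⁻¹ = h ^ (k * a v)`, and the sum of the `k * a v` is `0`. -/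
theorem exists_quot [Finite G] (S : Setup G p R H Z A B θ m₀) (V : Type) [AddCommGroup V] [Fintype V] :
    ∃ (K : Type) (_ : Group K) (_ : Finite K) (q : Kt A B S.nB S.BA V →* K),
      Function.Surjective q ∧ ∀ x, q x = 1 ↔ (x : V → G) ∈ JJ S V := by
  have hn : ((JJ S V).subgroupOf (Kt A B S.nB S.BA V)).Normal := by
    constructor
    intro t ht x
    rw [Subgroup.mem_subgroupOf] at ht ⊢
    exact quo_jj_conj S x.2 ht
  refine ⟨Kt A B S.nB S.BA V ⧸ (JJ S V).subgroupOf (Kt A B S.nB S.BA V), inferInstance, inferInstance,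
    QuotientGroup.mk' _, QuotientGroup.mk'_surjective _, fun x => ?_⟩
  rw [QuotientGroup.mk'_apply, QuotientGroup.eq_one_iff, Subgroup.mem_subgroupOf]

/-- The evaluation maps. -/
private def quoEv (A B : Subgroup G) [A.Normal] (hB : B.Normal) (hBA : ⁅B, B⁆ ≤ A) (V : Type)
    [AddCommGroup V] (v : V) : Kt A B hB hBA V →* G :=
  (Pi.evalMonoidHom (fun _ => G) v).comp (Kt A B hB hBA V).subtype

private theorem quoEv_apply {hB : B.Normal} {hBA : ⁅B, B⁆ ≤ A} {V : Type}
    [AddCommGroup V] (v : V) (x : Kt A B hB hBA V) : quoEv A B hB hBA V v x = (x : V → G) v := rfl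

private theorem quoEv_surj {hB : B.Normal} {hBA : ⁅B, B⁆ ≤ A} {V : Type}
    [AddCommGroup V] (v : V) : Function.Surjective (quoEv A B hB hBA V v) := fun g =>
  ⟨⟨fun _ => g, kt_const g⟩, rfl⟩

/-- The functions supported at `v`, with values in `R`. -/
private def quoSg (hRA : R ≤ A) (hB : B.Normal) (hBA : ⁅B, B⁆ ≤ A) (V : Type)
    [AddCommGroup V] [DecidableEq V] (v : V) : R →* Kt A B hB hBA V where
  toFun r := ⟨Pi.mulSingle v (r : G), kt_of_mem fun w => by
    rcases eq_or_ne w v with rfl | hw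
    · rw [Pi.mulSingle_eq_same]
      exact hRA r.2
    · rw [Pi.mulSingle_eq_of_ne hw]
      exact A.one_mem⟩
  map_one' := Subtype.ext (Pi.mulSingle_one (M := fun _ : V => G) v)
  map_mul' r s := Subtype.ext (Pi.mulSingle_mul (f := fun _ : V => G) v (r : G) (s : G))

private theorem quoSg_same (hRA : R ≤ A) (hB : B.Normal) (hBA : ⁅B, B⁆ ≤ A) {V : Type}
    [AddCommGroup V] [DecidableEq V] (v : V) (r : R) :
    (quoSg hRA hB hBA V v r : V → G) v = r := Pi.mulSingle_eq_same (M := fun _ : V => G) v (r : G)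

private theorem quoSg_ne (hRA : R ≤ A) (hB : B.Normal) (hBA : ⁅B, B⁆ ≤ A) {V : Type}
    [AddCommGroup V] [DecidableEq V] {v w : V} (hw : w ≠ v) (r : R) :
    (quoSg hRA hB hBA V v r : V → G) w = 1 :=
  Pi.mulSingle_eq_of_ne (M := fun _ : V => G) hw (r : G)

private theorem quo_inj (S : Setup G p R H Z A B θ m₀) {V : Type} [AddCommGroup V] [Fintype V]
    [DecidableEq V] {K : Type} [Group K] (q : Kt A B S.nB S.BA V →* K)
    (hk : ∀ x, q x = 1 ↔ (x : V → G) ∈ JJ S V) (v : V) :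
    Function.Injective (q.comp (quoSg S.RA S.nB S.BA V v)) := by
  rw [injective_iff_map_eq_one]
  intro r hr
  obtain ⟨a, ha, hae⟩ := (hk _).1 hr
  have h1 : ∀ w ∈ Finset.univ.erase v, a w = 0 := by
    intro w hw
    have h2 := hae w
    rw [quoSg_ne S.RA S.nB S.BA (Finset.ne_of_mem_erase hw)] at h2
    exact (S.eq_one _).1 (Subtype.ext h2.symm)
  have h2 : a v = 0 := by
    have h3 := Finset.add_sum_erase Finset.univ a (Finset.mem_univ v)
    rw [ha, Finset.sum_eq_zero h1, add_zero] at h3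
    exact h3
  have h3 := hae v
  rw [quoSg_same, h2, S.zero] at h3
  exact Subtype.ext h3

theorem exists_comp_of [Finite G] (S : Setup G p R H Z A B θ m₀) {V : Type} [AddCommGroup V]
    [Fintype V] [DecidableEq V] {K : Type} [Group K] (q : Kt A B S.nB S.BA V →* K)
    (hq : Function.Surjective q) (hk : ∀ x, q x = 1 ↔ (x : V → G) ∈ JJ S V) :
    ∃ C : Comp G R H Z θ V K, ∀ (x : Kt A B S.nB S.BA V) (v : V),
      C.π v (q x) = (((x : V → G) v : G) : G ⧸ Z) := by
  have hJ : ∀ t ∈ JJ S V, ∀ v, t v ∈ Z := by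
    rintro t ⟨a, -, ht⟩ v
    rw [ht]
    exact S.HZ (S.mem _)
  have hker : ∀ v, q.ker ≤ ((QuotientGroup.mk' Z).comp (quoEv A B S.nB S.BA V v)).ker := by
    intro v x hx
    exact (QuotientGroup.eq_one_iff _).2 (hJ _ ((hk x).1 hx) v)
  let π : V → K →* G ⧸ Z := fun v => q.liftOfSurjective hq ⟨_, hker v⟩
  have hπ : ∀ v x, π v (q x) = (((x : V → G) v : G) : G ⧸ Z) := fun v x =>
    MonoidHom.liftOfRightInverse_comp_apply _ _ _ _ x
  refine ⟨
    { ι := fun v => q.comp (quoSg S.RA S.nB S.BA V v)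
      π := π
      inj := quo_inj S q hk
      surj := ?_
      conj := ?_
      diag := ?_
      off := ?_
      same := ?_
      vis := ?_ }, fun x v => hπ v x⟩
  · intro v y
    obtain ⟨g, rfl⟩ := QuotientGroup.mk_surjective y
    exact ⟨q ⟨fun _ => g, kt_const g⟩, hπ v _⟩
  · intro v k g r s hkg hs
    obtain ⟨x, rfl⟩ := hq k
    rw [hπ] at hkg
    have hz : ((x : V → G) v)⁻¹ * g ∈ Z := QuotientGroup.eq.1 hkg
    have hz2 := (S.cen _).1 hz r r.2
    have h1 : x * quoSg S.RA S.nB S.BA V v r * x⁻¹ = quoSg S.RA S.nB S.BA V v s := by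
      apply Subtype.ext
      funext w
      rcases eq_or_ne w v with rfl | hw
      · rw [quoSg_same]
        show (x : V → G) w * (quoSg S.RA S.nB S.BA V w r : V → G) w * ((x : V → G) w)⁻¹ = s
        rw [quoSg_same, hs]
        generalize (x : V → G) w = y at *
        have h3 : g = y * (y⁻¹ * g) := by group
        have h4 : (y⁻¹ * g) * r * (y⁻¹ * g)⁻¹ = r := by rw [hz2]; group
        calc y * (r : G) * y⁻¹ = y * ((y⁻¹ * g) * r * (y⁻¹ * g)⁻¹) * y⁻¹ := by rw [h4]
          _ = g * r * g⁻¹ := by group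
      · rw [quoSg_ne S.RA S.nB S.BA hw]
        show (x : V → G) w * (quoSg S.RA S.nB S.BA V v r : V → G) w * ((x : V → G) w)⁻¹ = 1
        rw [quoSg_ne S.RA S.nB S.BA hw]
        group
    show q x * q (quoSg S.RA S.nB S.BA V v r) * (q x)⁻¹ = q (quoSg S.RA S.nB S.BA V v s)
    rw [← h1, map_mul, map_mul, map_inv]
  · intro v r
    show π v (q (quoSg S.RA S.nB S.BA V v r)) = _
    rw [hπ, quoSg_same]
  · intro v w r hvw
    show π w (q (quoSg S.RA S.nB S.BA V v r)) = 1
    rw [hπ, quoSg_ne S.RA S.nB S.BA hvw.symm]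
    rfl
  · intro v w m
    show q (quoSg S.RA S.nB S.BA V v (θ m)) = q (quoSg S.RA S.nB S.BA V w (θ m))
    rw [← inv_mul_eq_one, ← map_inv, ← map_mul, hk]
    refine ⟨fun u => (if u = w then m else 0) - (if u = v then m else 0), ?_, fun u => ?_⟩
    · simp
    · show ((quoSg S.RA S.nB S.BA V v (θ m) : V → G) u)⁻¹ *
        (quoSg S.RA S.nB S.BA V w (θ m) : V → G) u = _
      rcases eq_or_ne u v with rfl | h1
      · rcases eq_or_ne u w with rfl | h2
        · rw [quoSg_same]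
          simp [S.zero]
        · rw [quoSg_same, quoSg_ne S.RA S.nB S.BA h2]
          simp [h2, S.neg]
      · rcases eq_or_ne u w with rfl | h2
        · rw [quoSg_same, quoSg_ne S.RA S.nB S.BA h1]
          simp [h1]
        · rw [quoSg_ne S.RA S.nB S.BA h1, quoSg_ne S.RA S.nB S.BA h2]
          simp [h1, h2, S.zero]
  · intro L N hL hi
    have hfin : Finite (Kt A B S.nB S.BA V) := inferInstance
    obtain ⟨R', N', hL', hm, hN⟩ := loc_lift q hq hL
    have hi' : N'.relIndex R' = H.relIndex R := by rw [hN, relIndex_lift q hm, hi]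
    have hne : ∃ v, ¬ R' ≤ (quoEv A B S.nB S.BA V v).ker := by
      by_contra hcon
      push Not at hcon
      apply hL'.ne_bot
      rw [Subgroup.eq_bot_iff_forall]
      intro x hx
      exact Subtype.ext (funext fun v => MonoidHom.mem_ker.1 (hcon v hx))
    obtain ⟨v, hv⟩ := hne
    refine ⟨v, fun hle => ?_⟩
    have hR1 := S.uniq _ _ (loc_map (quoEv A B S.nB S.BA V v) (quoEv_surj v) hL' hv)
      ((relIndex_map_loc _ hL' hv).trans hi')
    refine absurd S.loc.lt (not_lt_of_ge fun r hr => ?_)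
    have hrR := hr
    rw [← hR1] at hr
    obtain ⟨x, hx, rfl⟩ := hr
    have h1 : q x ∈ L := by
      rw [← hm]
      exact ⟨x, hx, rfl⟩
    have h2 := hle h1
    have h3 : π v (q x) = 1 := h2
    rw [hπ] at h3
    exact S.RZ _ hrR ((QuotientGroup.eq_one_iff _).1 h3)

theorem form_mem_of [Finite G] (S : Setup G p R H Z A B θ m₀) {V : Type} [AddCommGroup V] [Fintype V]
    {K : Type} [Group K] [Finite K] (q : Kt A B S.nB S.BA V →* K)
    (hq : Function.Surjective q) : (form G).mem K := by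
  refine (form G).of_surj q hq ?_
  refine Formation.of_family (form G) (J := V) (fun _ => G) (fun v => quoEv A B S.nB S.BA V v)
    (fun v => quoEv_surj v) (fun _ => mem_form G) ?_
  intro x hx
  exact Subtype.ext (funext fun v => hx v)

end

end Mnf

end MP799fdf
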