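import Pool.Agent.Lib.MP_799fdf_al.Cry.QuoD

set_option autoImplicit false

open scoped commutatorElement

namespace MP799fdf

namespace Mnf

open Inn

section

variable {G : Type} [Group G] {R N D Z : Subgroup G} [D.Normal]

/-- PROOF. As `Crt.quo_cen` (`Crt/QuoA.lean`), but now `R ⊓ D` need not be trivial: if `g D` commutes with all `r D` then
`⁅g, r⁆ ∈ D ⊓ R ≤ Z ⊓ R ≤ N` for all `r ∈ R`, and then `g ∈ Z`: the proof of `Knf.Setup.cen_quot` in `Knf/BasA.lean` uses only `hloc`,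
`hZ`, `hNZ`; or use `Tz.cen_eq hloc hcen` (`hcen : ⁅N, R⁆ = ⊥`) : `cen R N hloc.nN = Subgroup.centralizer R` with `mem_cen`. -/
theorem quo_cen3 (hloc : Loc R N) (hDZ : D ≤ Z) (hNZ : N ≤ Z)
    (hZ : ∀ g : G, g ∈ Z ↔ ∀ r ∈ R, g * r = r * g) (g : G ⧸ D) :
    g ∈ Z.map (QuotientGroup.mk' D) ↔ ∀ r ∈ R.map (QuotientGroup.mk' D), g * r = r * g := by
  have hR := hloc.nR
  have hcen : ⁅N, R⁆ = ⊥ := by
    rw [eq_bot_iff, Subgroup.commutator_le]
    intro n hn r hr
    rw [Subgroup.mem_bot]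
    exact commutatorElement_eq_one_iff_mul_comm.2 ((hZ n).1 (hNZ hn) r hr)
  have hRD : ¬ R ≤ (QuotientGroup.mk' D).ker := by
    rw [QuotientGroup.ker_mk']
    intro e
    apply hloc.ne_bot
    have h1 : ⁅R, R⁆ = ⊥ := by
      rw [eq_bot_iff, Subgroup.commutator_le]
      intro n hn r hr
      rw [Subgroup.mem_bot]
      exact commutatorElement_eq_one_iff_mul_comm.2 ((hZ n).1 (hDZ (e hn)) r hr)
    rw [← hloc.perf, h1]
  have hinf := loc_inf_ker hloc hRD
  constructor
  · rintro ⟨z, hz, rfl⟩ _ ⟨r, hr, rfl⟩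
    rw [← map_mul, ← map_mul, (hZ z).1 hz r hr]
  · intro h
    obtain ⟨x, rfl⟩ := QuotientGroup.mk'_surjective D g
    refine ⟨x, ?_, rfl⟩
    have hx : x ∈ cen R N hloc.nN := by
      rw [mem_cen]
      intro r hr
      have h1 := h (QuotientGroup.mk' D r) ⟨r, hr, rfl⟩
      have h2 : ⁅x, r⁆ ∈ (QuotientGroup.mk' D).ker := by
        rw [MonoidHom.mem_ker, map_commutatorElement]
        exact commutatorElement_eq_one_iff_mul_comm.2 h1
      have h4 : ⁅x, r⁆ ∈ R := by
        rw [commutatorElement_def]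
        exact R.mul_mem (hR.conj_mem r hr x) (R.inv_mem hr)
      exact hinf ⟨h4, h2⟩
    rw [Tz.cen_eq hloc hcen, Subgroup.mem_centralizer_iff] at hx
    exact (hZ x).2 fun r hr => (hx r hr).symm

/-- PROOF. As `Cry.quo_uniq2` (`Cry/QuoD.lean`), with `R ⊓ D ≤ N` instead of `R ⊓ D = ⊥`. -/
theorem quo_uniq3 [Finite G] (hRD : R ⊓ D ≤ N) (hloc : Loc R N)
    (hother : ∀ L M : Subgroup G, Loc L M → M.relIndex L = N.relIndex R → L = R ∨ L ≤ D)
    (L M : Subgroup (G ⧸ D)) (h : Loc L M)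
    (hi : M.relIndex L = (N.map (QuotientGroup.mk' D)).relIndex (R.map (QuotientGroup.mk' D))) :
    L = R.map (QuotientGroup.mk' D) := by
  have hNn := hloc.nN
  obtain ⟨L', M', h', hmap, hM'⟩ := loc_lift (QuotientGroup.mk' D) (QuotientGroup.mk'_surjective D) h
  have e1 : M'.relIndex L' = M.relIndex L := by
    rw [hM', inf_comm, Subgroup.inf_relIndex_right, Subgroup.relIndex_comap, hmap]
  have e2 : (N.map (QuotientGroup.mk' D)).relIndex (R.map (QuotientGroup.mk' D)) =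
      N.relIndex R := by
    rw [← Subgroup.relIndex_comap, Subgroup.comap_map_eq, QuotientGroup.ker_mk',
      ← Subgroup.inf_relIndex_right]
    congr 1
    apply le_antisymm
    · rintro x ⟨hx1, hx2⟩
      obtain ⟨n, hn, d, hd, rfl⟩ := Subgroup.mem_sup_of_normal_right.1 hx1
      have h3 : d ∈ R ⊓ D := by
        refine ⟨?_, hd⟩
        have h4 := R.mul_mem (R.inv_mem (hloc.lt.le hn)) hx2
        rwa [inv_mul_cancel_left] at h4
      exact N.mul_mem hn (hRD h3)
    · exact le_inf le_sup_left hloc.lt.le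
  rcases hother L' M' h' (by rw [e1, hi, e2]) with h1 | h1
  · rw [← hmap, h1]
  · exfalso
    have h2 : L = ⊥ := by
      rw [← hmap, Subgroup.map_eq_bot_iff, QuotientGroup.ker_mk']
      exact h1
    exact h.ne_bot h2

end

end Mnf

end MP799fdf
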