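import Pool.Agent.Lib.MP_799fdf_al.Mnf.QuoA3

set_option autoImplicit false

open scoped commutatorElement

namespace MP799fdf

namespace Mnf

open Inn

section

/-- Two homomorphisms from a perfect group to `R` that agree modulo `Z` are equal. -/
private theorem quoB3_perf_hom {G : Type*} [Group G] {R Z : Subgroup G} [Z.Normal]
    (hc : ∀ z ∈ Z, ∀ r ∈ R, z * r = r * z) {L : Type*} [Group L]
    (hL : ⁅(⊤ : Subgroup L), (⊤ : Subgroup L)⁆ = ⊤) (α β : L →* R)
    (hαβ : ∀ l, ((α l : G) : G ⧸ Z) = ((β l : G) : G ⧸ Z)) : α = β := by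
  have hz : ∀ l, ∀ r ∈ R, ((β l : G)⁻¹ * (α l : G)) * r = r * ((β l : G)⁻¹ * (α l : G)) := by
    intro l
    exact hc _ (QuotientGroup.eq.1 (hαβ l).symm)
  have key : (⊤ : Subgroup L) ≤ α.eqLocus β := by
    rw [← hL, Subgroup.commutator_le]
    intro x _ y _
    show α ⁅x, y⁆ = β ⁅x, y⁆
    apply Subtype.ext
    rw [map_commutatorElement, map_commutatorElement]
    have hx := hz x
    have hy := hz y
    obtain ⟨u, hu⟩ : ∃ u : G, (β x : G)⁻¹ * (α x : G) = u := ⟨_, rfl⟩
    obtain ⟨v, hv⟩ : ∃ v : G, (β y : G)⁻¹ * (α y : G) = v := ⟨_, rfl⟩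
    have ex : (α x : G) = β x * u := by rw [← hu]; group
    have ey : (α y : G) = β y * v := by rw [← hv]; group
    rw [hu] at hx
    rw [hv] at hy
    have hvR : v ∈ R := by
      rw [← hv]
      exact R.mul_mem (R.inv_mem (β y).2) (α y).2
    have d1 : Commute u (β x : G) := hx _ (β x).2
    have d2 : Commute u (β y : G) := hx _ (β y).2
    have d3 : Commute u v := hx _ hvR
    have d4 : Commute v (β x : G) := hy _ (β x).2
    have d5 : Commute v (β y : G) := hy _ (β y).2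
    have e1 : ((⁅α x, α y⁆ : R) : G) = ⁅(α x : G), (α y : G)⁆ := rfl
    have e2 : ((⁅β x, β y⁆ : R) : G) = ⁅(β x : G), (β y : G)⁆ := rfl
    rw [e1, e2, ex, ey]
    generalize (β x : G) = a at *
    generalize (β y : G) = b at *
    have c2 : Commute v a⁻¹ := Commute.inv_right d4
    calc ⁅a * u, b * v⁆ = a * (u * (b * v)) * u⁻¹ * a⁻¹ * v⁻¹ * b⁻¹ := by
          rw [commutatorElement_def]
          group
      _ = a * b * (v * a⁻¹) * v⁻¹ * b⁻¹ := by
          rw [(d2.mul_right d3).eq]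
          group
      _ = ⁅a, b⁆ := by
          rw [c2.eq, commutatorElement_def]
          group
  ext l
  exact congrArg Subtype.val (key (Subgroup.mem_top l))

/-- A perfect subgroup is a perfect group. -/
private theorem quoB3_perf_top {G : Type*} [Group G] {H : Subgroup G} (h : ⁅H, H⁆ = H) :
    ⁅(⊤ : Subgroup H), (⊤ : Subgroup H)⁆ = ⊤ := by
  apply Subgroup.map_injective H.subtype_injective
  rw [Subgroup.map_commutator, ← MonoidHom.range_eq_map, Subgroup.range_subtype, h]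

/-- An automorphism that maps the kernel of a surjection into itself induces an automorphism of the
image. -/
private theorem quoB3_induced {R S : Type*} [Group R] [Finite R] [Group S] (f : R →* S)
    (hf : Function.Surjective f) (τ : R ≃* R) (h : ∀ r, f r = 1 → f (τ r) = 1) :
    ∃ τ' : S ≃* S, ∀ r, τ' (f r) = f (τ r) := by
  have h1 : f.ker.map τ.toMonoidHom ≤ f.ker := by
    rintro _ ⟨r, hr, rfl⟩
    exact h r hr
  have h2 : f.ker.map τ.toMonoidHom = f.ker := by
    apply Subgroup.eq_of_le_of_card_ge h1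
    rw [Subgroup.card_map_of_injective τ.injective]
  have hker : f.ker = (f.comp τ.toMonoidHom).ker := by
    ext r
    constructor
    · intro hr
      exact h r hr
    · intro hr
      have h3 : τ r ∈ f.ker.map τ.toMonoidHom := by
        rw [h2]
        exact hr
      obtain ⟨s, hs, hsr⟩ := h3
      have h4 : s = r := τ.injective hsr
      rw [← h4]
      exact hs
  have hf2 : Function.Surjective (f.comp τ.toMonoidHom) := hf.comp τ.surjective
  refine ⟨((QuotientGroup.quotientKerEquivOfSurjective f hf).symm.trans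
    (QuotientGroup.quotientMulEquivOfEq hker)).trans
      (QuotientGroup.quotientKerEquivOfSurjective (f.comp τ.toMonoidHom) hf2), ?_⟩
  intro r
  have h5 : (QuotientGroup.quotientKerEquivOfSurjective f hf).symm (f r) = (r : R ⧸ f.ker) := by
    rw [MulEquiv.symm_apply_eq]
    rfl
  rw [MulEquiv.trans_apply, MulEquiv.trans_apply, h5]
  rfl

variable {G : Type} [Group G] {R N D Z : Subgroup G} [D.Normal]

/-- Lifts in the quotient by `D`.

PROOF. `Crt.quo_theta` gives `θ : ((G ⧸ D) ⧸ Z.map _) ≃* (G ⧸ Z)`; `σ = (θ.symm.trans σ').trans θ` (see `Crt.quo_lift`), `τ` from `hlift`.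
Existence of `τ'`: `τ` maps `R ⊓ D` into itself (`hY`), onto by finiteness, so `r D ↦ (τ r) D` is a well defined automorphism of `R D / D`. For
example: let `f : R →* R.map (mk' D)` be the surjection `(mk' D).subgroupMap R`, whose kernel is `D.subgroupOf R`; `f.comp τ` has the same kernel;
`QuotientGroup.quotientKerEquivOfSurjective` twice and `QuotientGroup.quotientMulEquivOfEq` give `τ'` with `τ' (f r) = f (τ r)`. The last
clause: both `r' ↦ τ'₁ r'` (any lift of `σ'`) and the `τ'` just constructed are lifts of `σ'`, so they agree modulo `Z.map (mk' D)`, whose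
elements commute with those of `R.map (mk' D)`; and `R.map (mk' D)` is perfect, so they are equal: compare the proof of
`Knf.Setup.perf_hom` in `Knf/BasA.lean`, which uses only `S.cen` (copy it as a private lemma with distinctive name). -/
theorem quo_lift3 [Finite G] [Z.Normal] (hloc : Loc R N) (hDZ : D ≤ Z)
    (hZ : ∀ g : G, g ∈ Z ↔ ∀ r ∈ R, g * r = r * g) [(Z.map (QuotientGroup.mk' D)).Normal]
    (hlift : ∀ σ : (G ⧸ Z) ≃* (G ⧸ Z), ∃ τ : R ≃* R, Cry.Lift σ τ)
    (hY : ∀ (σ : (G ⧸ Z) ≃* (G ⧸ Z)) (τ : R ≃* R), Cry.Lift σ τ →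
      ∀ r : R, (r : G) ∈ D → ((τ r : R) : G) ∈ D)
    (σ' : ((G ⧸ D) ⧸ Z.map (QuotientGroup.mk' D)) ≃* ((G ⧸ D) ⧸ Z.map (QuotientGroup.mk' D))) :
    ∃ (σ : (G ⧸ Z) ≃* (G ⧸ Z)) (τ : R ≃* R), Cry.Lift σ τ ∧
      (∀ x y : G, σ (x : G ⧸ Z) = (y : G ⧸ Z) ↔
        σ' (((x : G ⧸ D)) : (G ⧸ D) ⧸ Z.map (QuotientGroup.mk' D)) =
          (((y : G ⧸ D)) : (G ⧸ D) ⧸ Z.map (QuotientGroup.mk' D))) ∧
      (∃ τ' : R.map (QuotientGroup.mk' D) ≃* R.map (QuotientGroup.mk' D), Cry.Lift σ' τ') ∧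
      ∀ τ' : R.map (QuotientGroup.mk' D) ≃* R.map (QuotientGroup.mk' D), Cry.Lift σ' τ' →
        ∀ (r : R) (r' : R.map (QuotientGroup.mk' D)), (r' : G ⧸ D) = ((r : G) : G ⧸ D) →
          ((τ' r' : R.map (QuotientGroup.mk' D)) : G ⧸ D) = (((τ r : R) : G) : G ⧸ D) := by
  obtain ⟨θ, hθ⟩ := Crt.quo_theta (Z := Z) hDZ
  have hx : ∀ x : G, θ.symm (x : G ⧸ Z) =
      (((x : G ⧸ D)) : (G ⧸ D) ⧸ Z.map (QuotientGroup.mk' D)) := by
    intro x
    rw [← hθ x, θ.symm_apply_apply]
  have hσ : ∀ x y : G, ((θ.symm.trans σ').trans θ) (x : G ⧸ Z) = (y : G ⧸ Z) ↔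
      σ' (((x : G ⧸ D)) : (G ⧸ D) ⧸ Z.map (QuotientGroup.mk' D)) =
        (((y : G ⧸ D)) : (G ⧸ D) ⧸ Z.map (QuotientGroup.mk' D)) := by
    intro x y
    rw [MulEquiv.trans_apply, MulEquiv.trans_apply, hx, ← hθ y]
    exact ⟨fun h => θ.injective h, fun h => by rw [h]⟩
  generalize (θ.symm.trans σ').trans θ = σ at hσ
  obtain ⟨τ, hτ⟩ := hlift σ
  have hfs : Function.Surjective ((QuotientGroup.mk' D).subgroupMap R) :=
    (QuotientGroup.mk' D).subgroupMap_surjective R
  have hfv : ∀ r : R, ((((QuotientGroup.mk' D).subgroupMap R) r :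
      R.map (QuotientGroup.mk' D)) : G ⧸ D) = ((r : G) : G ⧸ D) := fun r => rfl
  generalize (QuotientGroup.mk' D).subgroupMap R = f at hfs hfv
  have hf1 : ∀ r : R, f r = 1 ↔ (r : G) ∈ D := by
    intro r
    rw [← QuotientGroup.eq_one_iff (N := D), ← hfv r]
    exact Subtype.ext_iff
  obtain ⟨τ', hτ'⟩ := quoB3_induced f hfs τ
    (fun r hr => (hf1 _).2 (hY σ τ hτ r ((hf1 r).1 hr)))
  have hl : Cry.Lift σ' τ' := by
    intro r'
    obtain ⟨r, rfl⟩ := hfs r'
    rw [hτ', hfv, hfv]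
    exact ((hσ _ _).1 (hτ r).symm).symm
  refine ⟨σ, τ, hτ, hσ, ⟨τ', hl⟩, ?_⟩
  intro τ₁ h₁ r r' hr
  have hr' : r' = f r := Subtype.ext (hr.trans (hfv r).symm)
  have hp : ⁅R.map (QuotientGroup.mk' D), R.map (QuotientGroup.mk' D)⁆ =
      R.map (QuotientGroup.mk' D) := by
    rw [← Subgroup.map_commutator, hloc.perf]
  have hc : ∀ z ∈ Z.map (QuotientGroup.mk' D), ∀ s ∈ R.map (QuotientGroup.mk' D),
      z * s = s * z := by
    rintro _ ⟨z, hz, rfl⟩ _ ⟨s, hs, rfl⟩
    rw [← map_mul, ← map_mul, (hZ z).1 hz s hs]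
  have he : τ₁.toMonoidHom = τ'.toMonoidHom :=
    quoB3_perf_hom (Z := Z.map (QuotientGroup.mk' D)) hc (quoB3_perf_top hp) _ _
      (fun l => (h₁ l).trans (hl l).symm)
  have h6 : τ₁ (f r) = τ' (f r) := DFunLike.congr_fun he (f r)
  rw [hr', h6, hτ', hfv]

end

end Mnf

end MP799fdf
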