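import Pool.Agent.Lib.MP_799fdf_al.Mnf.CompA

/-! # Rigidity of the components -/

set_option autoImplicit false

open scoped commutatorElement

namespace MP799fdf

namespace Mnf

open Inn

variable {G : Type} [Group G] {p : ℕ} {R H Z A B : Subgroup G} [Z.Normal] {M : Type} [AddCommGroup M] {θ : M → R} {m₀ : M}
variable {V K V' K' P : Type} [Group K] [Group K'] [Group P]

private theorem riga_mem_map (C : Comp G R H Z θ V K) (ψ : P →* K) {L : Subgroup P} {v : V}
    (hv : L.map ψ = (C.ι v).range) (y : G ⧸ Z) :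
    y ∈ L.map ((C.π v).comp ψ) ↔ ∃ r : R, ((r : G) : G ⧸ Z) = y := by
  rw [← Subgroup.map_map, hv]
  constructor
  · rintro ⟨_, ⟨r, rfl⟩, rfl⟩
    exact ⟨r, (C.diag v r).symm⟩
  · rintro ⟨r, rfl⟩
    exact ⟨C.ι v r, ⟨r, rfl⟩, C.diag v r⟩

private theorem riga_map_eq (C : Comp G R H Z θ V K) (ψ : P →* K) {L : Subgroup P} {v : V}
    (hv : L.map ψ = (C.ι v).range) :
    L.map ((C.π v).comp ψ) = R.map (QuotientGroup.mk' Z) := by
  ext y
  rw [riga_mem_map C ψ hv]
  constructor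
  · rintro ⟨r, rfl⟩
    exact ⟨r, r.2, rfl⟩
  · rintro ⟨r, hr, rfl⟩
    exact ⟨⟨r, hr⟩, rfl⟩

private theorem riga_inf_ker [Finite P] (S : Setup G p R H Z A B θ m₀) (C : Comp G R H Z θ V K)
    (ψ : P →* K) {L N : Subgroup P} (hL : Loc L N) (hi : N.relIndex L = H.relIndex R) {v : V}
    (hv : L.map ψ = (C.ι v).range) : L ⊓ ((C.π v).comp ψ).ker = N := by
  have hmap := riga_map_eq C ψ hv
  have h1 : ((C.π v).comp ψ).ker.relIndex L = N.relIndex L := by
    rw [Subgroup.relIndex_ker, hmap, ← Subgroup.relIndex_ker, QuotientGroup.ker_mk', hi,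
      ← Subgroup.inf_relIndex_right Z R]
    congr 1
    exact le_antisymm (fun x hx => S.RZ x hx.2 hx.1) (le_inf S.HZ S.loc.lt.le)
  have hle : L ⊓ ((C.π v).comp ψ).ker ≤ N := by
    refine loc_inf_ker hL fun hk => ?_
    have h2 := (Subgroup.map_eq_bot_iff L).2 hk
    rw [hmap, Subgroup.map_eq_bot_iff, QuotientGroup.ker_mk'] at h2
    exact absurd S.loc.lt (not_lt_of_ge fun x hx => S.RZ x hx (h2 hx))
  refine le_antisymm hle ?_
  have h3 := Subgroup.relIndex_mul_relIndex _ _ _ hle hL.lt.le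
  rw [Subgroup.inf_relIndex_left, h1] at h3
  have h4 : N.relIndex L ≠ 0 := Subgroup.index_ne_zero_of_finite
  have h5 : (L ⊓ ((C.π v).comp ψ).ker).relIndex N = 1 :=
    Nat.eq_of_mul_eq_mul_right (Nat.pos_of_ne_zero h4) (by rw [h3, one_mul])
  exact Subgroup.relIndex_eq_one.1 h5

/-- PROOF. `a = (C.π v).comp ψ`. First `L ⊓ a.ker = N`: `L.map a = R.map (mk' Z) ≠ ⊥` (`hv`, `C.diag`,
`S.loc.lt`), so `L` is not `≤ a.ker` and `L ⊓ a.ker ≤ N` (`loc_inf_ker`); and
`(L ⊓ a.ker).relIndex L = (⊥ : Subgroup (G ⧸ Z)).relIndex (L.map a) = H.relIndex R = N.relIndex L`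
(`relIndex_lift` for `a` and `⊥`; `relIndex_map_loc`-like computation for `mk' Z`), so equality (finite
group). `⊆`: if `a x = 1` then `⁅x, l⁆ ∈ L ⊓ a.ker = N`. `⊇`: if `⁅x, l⁆ ∈ N` for all `l ∈ L` then `a x`
commutes with `L.map a = R.map (mk' Z)`; for `g` with `a x = g` this gives `⁅g, r⁆ ∈ H` for `r ∈ R`, so
`g ∈ H` (`S.cen_quot`). -/
theorem ker_eq_cen [Finite P] [Finite G] (S : Setup G p R H Z A B θ m₀) (C : Comp G R H Z θ V K)
    (ψ : P →* K) (hψ : Function.Surjective ψ) {L N : Subgroup P} (hL : Loc L N)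
    (hi : N.relIndex L = H.relIndex R) {v : V} (hv : L.map ψ = (C.ι v).range) :
    ((C.π v).comp ψ).ker = cen L N hL.nN := by
  have hinf := riga_inf_ker S C ψ hL hi hv
  have hLn := hL.nR
  have hmem : ∀ x l : P, l ∈ L → ⁅x, l⁆ ∈ L := by
    intro x l hl
    rw [commutatorElement_def]
    exact L.mul_mem (hLn.conj_mem l hl x) (L.inv_mem hl)
  ext x
  rw [MonoidHom.mem_ker, mem_cen]
  constructor
  · intro hx l hl
    rw [← hinf]
    refine ⟨hmem x l hl, ?_⟩
    show ((C.π v).comp ψ) ⁅x, l⁆ = 1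
    rw [map_commutatorElement, hx, commutatorElement_one_left]
  · intro hx
    obtain ⟨g, hg⟩ := QuotientGroup.mk_surjective (((C.π v).comp ψ) x)
    rw [← hg, QuotientGroup.eq_one_iff]
    refine S.cen_quot g fun r hr => ?_
    obtain ⟨l, hl, hlr⟩ := (riga_mem_map C ψ hv ((r : G) : G ⧸ Z)).2 ⟨⟨r, hr⟩, rfl⟩
    have h1 : ⁅x, l⁆ ∈ L ⊓ ((C.π v).comp ψ).ker := by
      rw [hinf]
      exact hx l hl
    have h2 : ((C.π v).comp ψ) ⁅x, l⁆ = 1 := h1.2
    rw [map_commutatorElement, hlr, ← hg] at h2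
    have hR := S.loc.nR
    refine S.RZ _ ?_ ((QuotientGroup.eq_one_iff _).1 h2)
    rw [commutatorElement_def]
    exact R.mul_mem (hR.conj_mem r hr g) (R.inv_mem hr)

/-- PROOF. `ker_eq_cen` twice: `a = (C.π v).comp ψ` and `b = (C'.π v').comp ψ'` are surjective with the
same kernel; `QuotientGroup.quotientKerEquivOfSurjective`, `QuotientGroup.quotientMulEquivOfEq`. -/
theorem rigidA [Finite P] [Finite G] (S : Setup G p R H Z A B θ m₀) (C : Comp G R H Z θ V K)
    (C' : Comp G R H Z θ V' K') (ψ : P →* K) (hψ : Function.Surjective ψ) (ψ' : P →* K')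
    (hψ' : Function.Surjective ψ') {L N : Subgroup P} (hL : Loc L N)
    (hi : N.relIndex L = H.relIndex R) {v : V} {v' : V'} (hv : L.map ψ = (C.ι v).range)
    (hv' : L.map ψ' = (C'.ι v').range) :
    ∃ σ : (G ⧸ Z) ≃* (G ⧸ Z), ∀ x : P, C'.π v' (ψ' x) = σ (C.π v (ψ x)) := by
  have h1 := ker_eq_cen S C ψ hψ hL hi hv
  have h2 := ker_eq_cen S C' ψ' hψ' hL hi hv'
  have ha : Function.Surjective ((C.π v).comp ψ) := (C.surj v).comp hψ
  have hb : Function.Surjective ((C'.π v').comp ψ') := (C'.surj v').comp hψ'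
  let e1 := QuotientGroup.quotientKerEquivOfSurjective ((C.π v).comp ψ) ha
  let e2 := QuotientGroup.quotientKerEquivOfSurjective ((C'.π v').comp ψ') hb
  let e3 := QuotientGroup.quotientMulEquivOfEq (h1.trans h2.symm)
  refine ⟨(e1.symm.trans e3).trans e2, fun x => ?_⟩
  have h3 : e1.symm (C.π v (ψ x)) = (x : P ⧸ ((C.π v).comp ψ).ker) := by
    rw [MulEquiv.symm_apply_eq]
    rfl
  show _ = e2 (e3 (e1.symm (C.π v (ψ x))))
  rw [h3]
  rfl

end Mnf

end MP799fdf
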