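import Pool.Agent.Lib.MP_799fdf_al.Mnf.Mk
import Pool.Agent.Lib.MP_799fdf_al.Knf.Setp

set_option autoImplicit false

open scoped commutatorElement

namespace MP799fdf

namespace Mnf

open Inn

/-- The second case of `exists_setup`: all lifts fix `h`.

PROOF. `A, B` are obtained from `Inf.exists_char` exactly as in the second case of `Knf.exists_setup` (`Knf/Setp.lean`, copy it). Let `W` be the
subgroup of `R` of all `w` with `(w : G) ∈ H`, `w ^ p = 1` and `τ w = w` for all lifts `τ` of all `σ`. Every `b : G` commutes with the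
elements of `W`: conjugation by `b` (`MulAut.conjNormal b : R ≃* R`) is a lift of `MulAut.conj (b : G ⧸ Z)`. Then `setup_mk` with
`w₀ = h`. -/
theorem exists_setupB {G : Type} [Group G] [Finite G] {p : ℕ} (hp : p.Prime)
    (R H Z A₀ B₀ : Subgroup G) [Z.Normal] (hloc : Loc R H) (hHZ : H ≤ Z)
    (hcen : ∀ g : G, g ∈ Z ↔ ∀ r ∈ R, g * r = r * g)
    (huniq : ∀ L N : Subgroup G, Loc L N → N.relIndex L = H.relIndex R → L = R)
    (hA₀ : A₀.Normal) (hB₀ : B₀.Normal) (hRA : R ≤ A₀) (hZA : Z ≤ A₀) (hAB : A₀ < B₀)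
    (hBA : ⁅B₀, B₀⁆ ≤ A₀) (hd : p ∣ A₀.relIndex B₀) (h : R) (hH : (h : G) ∈ H) (h1 : h ≠ 1)
    (hhp : h ^ p = 1)
    (hnt : ∀ σ : (G ⧸ Z) ≃* (G ⧸ Z), ∃ τ : R ≃* R,
      ∀ r : R, (((τ r : R) : G) : G ⧸ Z) = σ ((r : G) : G ⧸ Z))
    (hf : ∀ (σ : (G ⧸ Z) ≃* (G ⧸ Z)) (τ : R ≃* R),
      (∀ r : R, (((τ r : R) : G) : G ⧸ Z) = σ ((r : G) : G ⧸ Z)) → τ h = h) :
    ∃ (A B : Subgroup G) (M : Type) (_ : AddCommGroup M) (_ : Module (ZMod p) M) (θ : M → R)
      (m₀ : M), Setup G p R H Z A B θ m₀ := by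
  obtain ⟨B₁, hB₁, hAB₁, -, hBA₁, hBp₁⟩ := Knf.exists_elem hp A₀ B₀ hA₀ hB₀ hAB hBA hd
  have hsurj : Function.Surjective (QuotientGroup.mk' Z) := QuotientGroup.mk'_surjective Z
  have hfin : Finite (G ⧸ Z) := Finite.of_surjective _ hsurj
  have hkerA : (QuotientGroup.mk' Z).ker ≤ A₀ := by
    rw [QuotientGroup.ker_mk']
    exact hZA
  have hR₀ : (R.map (QuotientGroup.mk' Z)).Characteristic := by
    rw [Subgroup.characteristic_iff_map_le]
    intro σ y hy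
    obtain ⟨x, hx, rfl⟩ := Subgroup.mem_map.1 hy
    obtain ⟨r, hr, rfl⟩ := Subgroup.mem_map.1 hx
    obtain ⟨τ, hτ⟩ := hnt σ
    refine Subgroup.mem_map.2 ⟨((τ ⟨r, hr⟩ : R) : G), (τ ⟨r, hr⟩).2, ?_⟩
    exact hτ ⟨r, hr⟩
  have hlt : A₀.map (QuotientGroup.mk' Z) < B₁.map (QuotientGroup.mk' Z) := by
    refine lt_of_le_of_ne (Subgroup.map_mono hAB₁.le) fun e => ?_
    refine absurd hAB₁ (not_lt_of_ge ?_)
    have h5 : B₁ ≤ (A₀.map (QuotientGroup.mk' Z)).comap (QuotientGroup.mk' Z) := by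
      rw [← Subgroup.map_le_iff_le_comap, e]
    rwa [Subgroup.comap_map_eq_self hkerA] at h5
  have hcom : ⁅B₁.map (QuotientGroup.mk' Z), B₁.map (QuotientGroup.mk' Z)⁆ ≤
      A₀.map (QuotientGroup.mk' Z) := by
    rw [← Subgroup.map_commutator]
    exact Subgroup.map_mono hBA₁
  have hpow : ∀ b ∈ B₁.map (QuotientGroup.mk' Z), b ^ p ∈ A₀.map (QuotientGroup.mk' Z) := by
    intro b hb
    obtain ⟨x, hx, rfl⟩ := Subgroup.mem_map.1 hb
    rw [← map_pow]
    exact Subgroup.mem_map_of_mem _ (hBp₁ x hx)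
  obtain ⟨A', B', hA', hB', hRA', hAB', hBA', hBp'⟩ := Inf.exists_char p
    (R.map (QuotientGroup.mk' Z)) hR₀ (A₀.map (QuotientGroup.mk' Z))
    (B₁.map (QuotientGroup.mk' Z)) (hA₀.map _ hsurj) (hB₁.map _ hsurj)
    (Subgroup.map_mono hRA) hlt hcom hpow
  have hnR : R.Normal := hloc.nR
  have hcR : ∀ x y : R, (x : G) ∈ H → Commute x y := by
    intro x y hx
    apply Subtype.ext
    exact (hcen _).1 (hHZ hx) _ y.2
  let W : Subgroup R :=
    { carrier := {w | (w : G) ∈ H ∧ w ^ p = 1 ∧ ∀ (σ : (G ⧸ Z) ≃* (G ⧸ Z)) (τ : R ≃* R),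
        (∀ r : R, (((τ r : R) : G) : G ⧸ Z) = σ ((r : G) : G ⧸ Z)) → τ w = w}
      one_mem' := ⟨H.one_mem, one_pow p, fun σ τ _ => map_one τ⟩
      mul_mem' := by
        rintro x y ⟨hx, hxp, hxt⟩ ⟨hy, hyp, hyt⟩
        refine ⟨H.mul_mem hx hy, ?_, fun σ τ ht => ?_⟩
        · rw [(hcR x y hx).mul_pow, hxp, hyp, one_mul]
        · rw [map_mul, hxt σ τ ht, hyt σ τ ht]
      inv_mem' := by
        rintro x ⟨hx, hxp, hxt⟩
        refine ⟨H.inv_mem hx, ?_, fun σ τ ht => ?_⟩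
        · rw [inv_pow, hxp, inv_one]
        · rw [map_inv, hxt σ τ ht] }
  have hmem : ∀ w, w ∈ W ↔ (w : G) ∈ H ∧ w ^ p = 1 ∧ ∀ (σ : (G ⧸ Z) ≃* (G ⧸ Z)) (τ : R ≃* R),
      (∀ r : R, (((τ r : R) : G) : G ⧸ Z) = σ ((r : G) : G ⧸ Z)) → τ w = w := fun w => Iff.rfl
  obtain ⟨M, i1, i2, θ, m₀, S⟩ := setup_mk (G := G) (p := p) (R := R) (H := H) (Z := Z)
    (A := A'.comap (QuotientGroup.mk' Z)) (B := B'.comap (QuotientGroup.mk' Z)) hp hloc hcen hHZ
    huniq ((Subgroup.normal_of_characteristic A').comap _)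
    ((Subgroup.normal_of_characteristic B').comap _)
    (Subgroup.map_le_iff_le_comap.1 hRA')
    (by
      intro z hz
      rw [Subgroup.mem_comap]
      have h2 : (QuotientGroup.mk' Z) z = 1 := (QuotientGroup.eq_one_iff z).2 hz
      rw [h2]
      exact A'.one_mem)
    ((Subgroup.comap_lt_comap_of_surjective hsurj).2 hAB')
    (by
      rw [Subgroup.commutator_le]
      intro x hx y hy
      rw [Subgroup.mem_comap, map_commutatorElement]
      exact hBA' (Subgroup.commutator_mem_commutator hx hy))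
    (by
      intro b hb
      rw [Subgroup.mem_comap, map_pow]
      exact hBp' _ hb)
    (by
      intro σ x y hxy h7
      rw [Subgroup.mem_comap] at h7 ⊢
      have h5 := hA'.fixed σ
      have h6 : (QuotientGroup.mk' Z) y = σ ((QuotientGroup.mk' Z) x) := hxy.symm
      rw [h6]
      rw [← h5] at h7
      exact h7)
    W (fun w hw => ((hmem w).1 hw).1) (fun w hw => ((hmem w).1 hw).2.1)
    (by
      intro w hw b _
      have h2 := ((hmem w).1 hw).2.2 (MulAut.conj (b : G ⧸ Z)) (MulAut.conjNormal b)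
        (fun r => by
          rw [MulAut.conjNormal_apply, MulAut.conj_apply]
          rfl)
      have h3 : b * (w : G) * b⁻¹ = (w : G) := by
        rw [← MulAut.conjNormal_apply, h2]
      exact mul_inv_eq_iff_eq_mul.1 h3)
    (by
      intro σ
      obtain ⟨τ, hτ⟩ := hnt σ
      refine ⟨τ, hτ, fun w hw => ?_⟩
      rw [((hmem w).1 hw).2.2 σ τ hτ]
      exact hw)
    h ((hmem h).2 ⟨hH, hhp, hf⟩) h1 (fun σ _ τ hτ => hf σ τ hτ)
  exact ⟨_, _, M, i1, i2, θ, m₀, S⟩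

end Mnf

end MP799fdf
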