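import Pool.Agent.Lib.MP_799fdf_al.Mnf.Es

set_option autoImplicit false

open scoped commutatorElement

namespace MP799fdf

namespace Mnf

open Inn

/-- PROOF. `Y.subgroupOf H` is normal in `H` (commutative, `hH`), the quotient has order divisible by `p`; Cauchy
(`exists_prime_orderOf_dvd_card'`). -/
theorem exists_pt {X : Type} [Group X] [Finite X] {p : ℕ} (hp : p.Prime) {H Y : Subgroup X}
    (hH : H ≤ Subgroup.center X) (hYH : Y ≤ H) (hd : p ∣ Y.relIndex H) :
    ∃ h ∈ H, h ∉ Y ∧ h ^ p ∈ Y := by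
  have hN : Y.Normal := by
    constructor
    intro y hy g
    have h1 := Subgroup.mem_center_iff.1 (hH (hYH hy)) g
    rw [h1, mul_inv_cancel_right]
    exact hy
  have : Fact p.Prime := ⟨hp⟩
  have hd' : p ∣ Nat.card (H ⧸ Y.subgroupOf H) := hd
  obtain ⟨x, hx⟩ := exists_prime_orderOf_dvd_card' p hd'
  obtain ⟨h, rfl⟩ := QuotientGroup.mk_surjective x
  refine ⟨h, h.2, ?_, ?_⟩
  · intro hY
    have h1 : ((h : H ⧸ Y.subgroupOf H)) = 1 := by
      rw [QuotientGroup.eq_one_iff]
      exact hY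
    rw [h1, orderOf_one] at hx
    exact hp.one_lt.ne hx
  · have h1 : ((h : H ⧸ Y.subgroupOf H)) ^ p = 1 := by
      rw [← hx, pow_orderOf_eq_one]
    have h2 : (((h ^ p : H) : H ⧸ Y.subgroupOf H)) = 1 := by
      rw [← h1]
      rfl
    rw [QuotientGroup.eq_one_iff] at h2
    exact h2

end Mnf

end MP799fdf
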